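import Pool.Agent.X112.SD.Palm
import Pool.Agent.X112.GS.Conc

/-! # Second differences of the ordinates in a dyadic block -/

set_option autoImplicit false

namespace Pool.Agent.X112.SD

open Filter Topology MeasureTheory Set
open SG (ord NZ)
open Pool.Agent.Y743.NC (dev dev_nonneg dev_int var_le unit_count)
open Pool.Agent.Y743.CL (exM big_ev)

/-- the numerical conditions -/
lemma bad_small (A q ε M C : ℝ) (hA : 1 ≤ A) (hq : 0 < q) (hε : 0 < ε) (hM : 1 ≤ M) (hC : 1 ≤ C) :
    ∀ᶠ k : ℕ in atTop, ∃ W : ℕ, 1 ≤ W ∧ (W : ℝ) ≤ k ∧ M + q * Real.sqrt (Real.log k) ≤ W / 2 ∧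
      4 * ((2 * W + 1) * ((C + Real.log (1 + W)) / (q * Real.sqrt (Real.log k)) ^ 2) +
        2 * ((C + (2 + A * Real.log k)) / (W / 2) ^ 2)) +
        (C + Real.log (1 + M)) / (q * Real.sqrt (Real.log k)) ^ 2 ≤ ε := by
  obtain ⟨K, hKd⟩ : ∃ K : ℝ, K = max (4 * q) (Real.sqrt (64 * A / ε)) + 1 := ⟨_, rfl⟩
  have hK1 : 1 ≤ K := by
    rw [hKd]
    have : 0 ≤ max (4 * q) (Real.sqrt (64 * A / ε)) := le_max_of_le_right (Real.sqrt_nonneg _)
    linarith
  have hKq : 4 * q ≤ K := by
    rw [hKd]; linarith [le_max_left (4 * q) (Real.sqrt (64 * A / ε))]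
  have hKA : 64 * A / ε ≤ K ^ 2 := by
    have h1 : Real.sqrt (64 * A / ε) ≤ K := by
      rw [hKd]; linarith [le_max_right (4 * q) (Real.sqrt (64 * A / ε))]
    have h2 := pow_le_pow_left₀ (Real.sqrt_nonneg _) h1 2
    rwa [Real.sq_sqrt (by positivity)] at h2
  have hs : Tendsto (fun k : ℕ => Real.sqrt (Real.log k)) atTop atTop :=
    Real.tendsto_sqrt_atTop.comp (Real.tendsto_log_atTop.comp tendsto_natCast_atTop_atTop)
  -- the function of `s`
  have hlim : Tendsto (fun s : ℝ => 4 * ((2 * (K * s + 1) + 1) * ((C + Real.log (1 + (K * s + 1))) / (q * s) ^ 2) +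
        2 * ((C + (2 + A * s ^ 2)) / (K * s / 2) ^ 2)) + (C + Real.log (1 + M)) / (q * s) ^ 2) atTop
      (𝓝 (4 * (0 + 2 * (4 * A / K ^ 2)) + 0)) := by
    have hinv : Tendsto (fun s : ℝ => s⁻¹) atTop (𝓝 0) := tendsto_inv_atTop_zero
    have hlog : Tendsto (fun s : ℝ => Real.log (1 + (K * s + 1)) / s) atTop (𝓝 0) := by
      have h1 : (fun s : ℝ => Real.log (1 + (K * s + 1))) =o[atTop] fun s : ℝ => 1 + (K * s + 1) := by
        have h2 : Tendsto (fun s : ℝ => 1 + (K * s + 1)) atTop atTop :=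
          tendsto_atTop_add_const_left _ _ (tendsto_atTop_add_const_right _ _
            (tendsto_id.const_mul_atTop (by linarith)))
        exact Real.isLittleO_log_id_atTop.comp_tendsto h2
      have h3 : (fun s : ℝ => 1 + (K * s + 1)) =O[atTop] fun s : ℝ => s := by
        refine Asymptotics.IsBigO.of_bound (K + 2) ?_
        filter_upwards [eventually_ge_atTop 1] with s hs
        rw [Real.norm_of_nonneg (by positivity), Real.norm_of_nonneg (by linarith)]
        nlinarith
      exact (h1.trans_isBigO h3).tendsto_div_nhds_zero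
    have hA1 : Tendsto (fun s : ℝ => (2 * (K * s + 1) + 1) * ((C + Real.log (1 + (K * s + 1))) / (q * s) ^ 2))
        atTop (𝓝 0) := by
      have h1 : Tendsto (fun s : ℝ => (2 * K + 3 * s⁻¹) * ((C * s⁻¹ + Real.log (1 + (K * s + 1)) / s) / q ^ 2))
          atTop (𝓝 ((2 * K + 3 * 0) * ((C * 0 + 0) / q ^ 2))) :=
        (tendsto_const_nhds.add (hinv.const_mul 3)).mul (((hinv.const_mul C).add hlog).div_const _)
      rw [mul_zero, mul_zero, add_zero, add_zero, zero_div, mul_zero] at h1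
      refine h1.congr' ?_
      filter_upwards [eventually_gt_atTop 0] with s hs
      field_simp
      ring
    have hA2 : Tendsto (fun s : ℝ => (C + (2 + A * s ^ 2)) / (K * s / 2) ^ 2) atTop (𝓝 (4 * A / K ^ 2)) := by
      have h1 : Tendsto (fun s : ℝ => 4 * ((C + 2) * (s⁻¹ * s⁻¹) + A) / K ^ 2) atTop
          (𝓝 (4 * ((C + 2) * (0 * 0) + A) / K ^ 2)) :=
        ((((hinv.mul hinv).const_mul (C + 2)).add_const A).const_mul 4).div_const _
      rw [mul_zero, mul_zero, zero_add] at h1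
      refine h1.congr' ?_
      filter_upwards [eventually_gt_atTop 0] with s hs
      field_simp
      ring
    have hA3 : Tendsto (fun s : ℝ => (C + Real.log (1 + M)) / (q * s) ^ 2) atTop (𝓝 0) := by
      have h1 : Tendsto (fun s : ℝ => (C + Real.log (1 + M)) / q ^ 2 * (s⁻¹ * s⁻¹)) atTop
          (𝓝 ((C + Real.log (1 + M)) / q ^ 2 * (0 * 0))) := (hinv.mul hinv).const_mul _
      rw [mul_zero, mul_zero] at h1
      refine h1.congr' ?_
      filter_upwards [eventually_gt_atTop 0] with s hs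
      field_simp
    exact ((hA1.add (hA2.const_mul 2)).const_mul 4).add hA3
  have hval : 4 * (0 + 2 * (4 * A / K ^ 2)) + 0 < ε := by
    have h1 : 64 * A ≤ K ^ 2 * ε := by rwa [div_le_iff₀ hε] at hKA
    have h2 : 4 * (0 + 2 * (4 * A / K ^ 2)) + 0 = 32 * A / K ^ 2 := by ring
    rw [h2, div_lt_iff₀ (by positivity)]
    linarith
  have hsmall : ∀ᶠ k : ℕ in atTop, (K * Real.sqrt (Real.log k) + 1) ≤ k := by
    have h1 : Tendsto (fun k : ℕ => Real.log (k : ℝ) / (k : ℝ) ^ (1 : ℝ)) atTop (𝓝 0) :=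
      (isLittleO_log_rpow_atTop (by norm_num : (0:ℝ) < 1)).tendsto_div_nhds_zero.comp
        tendsto_natCast_atTop_atTop
    filter_upwards [h1.eventually_le_const (show (0 : ℝ) < 1 / (2 * K) by positivity), hs.eventually_ge_atTop 1,
      eventually_ge_atTop 2] with k h2 h3 h4
    have hk : (2 : ℝ) ≤ k := by exact_mod_cast h4
    rw [Real.rpow_one, div_le_iff₀ (by linarith)] at h2
    have h5 : Real.sqrt (Real.log k) ≤ Real.log k := by
      have h6 : Real.sqrt (Real.log k) ^ 2 = Real.log k := Real.sq_sqrt (Real.log_nonneg (by linarith))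
      nlinarith
    have h6 : K * Real.sqrt (Real.log k) ≤ k / 2 := by
      calc K * Real.sqrt (Real.log k) ≤ K * (1 / (2 * K) * k) :=
            mul_le_mul_of_nonneg_left (h5.trans h2) (by linarith)
        _ = k / 2 := by field_simp
    linarith
  filter_upwards [hs.eventually (hlim.eventually_lt_const hval), hs.eventually_ge_atTop 1, hsmall,
    hs.eventually_ge_atTop (4 * M / K)] with k h1 h2 h3 h4
  set s := Real.sqrt (Real.log k) with hsd
  have hs0 : 0 < s := by linarith
  have hs2 : s ^ 2 = Real.log k := by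
    apply Real.sq_sqrt
    by_contra hcon
    push Not at hcon
    rw [hsd, Real.sqrt_eq_zero_of_nonpos hcon.le] at hs0
    exact lt_irrefl _ hs0
  obtain ⟨W, hW⟩ : ∃ W : ℕ, W = ⌈K * s⌉₊ := ⟨_, rfl⟩
  have hW1 : K * s ≤ W := by rw [hW]; exact Nat.le_ceil _
  have hW2 : (W : ℝ) ≤ K * s + 1 := by
    rw [hW]; exact (Nat.ceil_lt_add_one (by positivity)).le
  have hW0 : 1 ≤ (W : ℝ) := by nlinarith
  refine ⟨W, by exact_mod_cast hW0, hW2.trans h3, ?_, ?_⟩
  · rw [div_le_iff₀ (by linarith)] at h4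
    nlinarith
  · refine le_trans ?_ h1.le
    have hqs : 0 < (q * s) ^ 2 := by positivity
    have g1 : Real.log (1 + (W : ℝ)) ≤ Real.log (1 + (K * s + 1)) :=
      Real.log_le_log (by linarith) (by linarith)
    have g2 : 0 ≤ Real.log (1 + (W : ℝ)) := Real.log_nonneg (by linarith)
    have g3 : (2 * (W : ℝ) + 1) * ((C + Real.log (1 + W)) / (q * s) ^ 2) ≤
        (2 * (K * s + 1) + 1) * ((C + Real.log (1 + (K * s + 1))) / (q * s) ^ 2) := by
      gcongr
    have g4 : (C + (2 + A * Real.log k)) / ((W : ℝ) / 2) ^ 2 ≤ (C + (2 + A * s ^ 2)) / (K * s / 2) ^ 2 := by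
      rw [hs2]
      have : 0 ≤ Real.log k := by rw [← hs2]; positivity
      gcongr
    linarith

theorem block_sd (A : ℕ) (hA : 1 ≤ A) (x ε : ℝ) (hx : 0 < x) (hε : 0 < ε) :
    ∀ᶠ k : ℕ in atTop, ∀ r : ℕ, k ≤ r → r ≤ k ^ A → ∃ T0 : ℝ, 1 ≤ T0 ∧ ∀ T : ℝ, T0 ≤ T →
    (((Finset.Ioc (NZ T) (NZ (2 * T))).filter (fun n =>
      |ord (n + (r + k)) - ord (n + r) - ord (n + k) + ord n| ≤
        x / 2 * Real.sqrt (Real.log k) * (2 * Real.pi / Real.log T))).card : ℝ) ≤
      (8 * x + ε) * (T * Real.log T / (2 * Real.pi)) := by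
  classical
  have hpi := Real.pi_pos
  obtain ⟨δ, hδd⟩ : ∃ δ : ℝ, δ = ε / 8 := ⟨_, rfl⟩
  have hδ : 0 < δ := by rw [hδd]; positivity
  obtain ⟨C1, T1, hC1, hT1, hvar⟩ := var_le
  obtain ⟨C3, T3, hC3, hT3, hBd⟩ := Bd_le
  obtain ⟨M, hM1, hM⟩ := exM C1 δ hδ
  obtain ⟨C2, hC2, huc⟩ := unit_count
  obtain ⟨R, hR3, hR⟩ := stat_sd 1 le_rfl x δ hx hδ
  have hM0 : 0 < M := by linarith
  have hA1 : (1 : ℝ) ≤ A := by exact_mod_cast hA
  have hs : Tendsto (fun k : ℕ => Real.sqrt (Real.log k)) atTop atTop :=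
    Real.tendsto_sqrt_atTop.comp (Real.tendsto_log_atTop.comp tendsto_natCast_atTop_atTop)
  filter_upwards [bad_small A (x / 16) δ M C3 hA1 (by positivity) hδ hM1 hC3,
    hs.eventually_ge_atTop (16 / x), eventually_ge_atTop 2,
    (tendsto_natCast_atTop_atTop (R := ℝ)).eventually_ge_atTop R] with k hk1 hk2 hk3 hk4 r hkr hrA
  obtain ⟨W, hW1, hWk, hMW, hnum⟩ := hk1
  have hkr' : (k : ℝ) ≤ r := by exact_mod_cast hkr
  have hk3' : (2 : ℝ) ≤ k := by exact_mod_cast hk3
  have hW1' : (1 : ℝ) ≤ W := by exact_mod_cast hW1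
  set sk := Real.sqrt (Real.log k) with hsk
  have hsk0 : 0 < sk := lt_of_lt_of_le (by positivity) hk2
  obtain ⟨ω, hω⟩ : ∃ ω : ℝ, ω = x / 16 * sk := ⟨_, rfl⟩
  have hω0 : 0 < ω := by rw [hω]; positivity
  rw [← hω] at hMW hnum
  -- the large parameter
  obtain ⟨Λ, hΛ⟩ : ∃ Λ : ℝ, Λ = r + k + W + M := ⟨_, rfl⟩
  have hΛ1 : 1 ≤ Λ := by rw [hΛ]; linarith
  have hlog := Real.tendsto_log_atTop
  obtain ⟨T4, hT4⟩ := ((((hlog.eventually_ge_atTop (Λ * Real.log Λ)).and
    (hlog.eventually_ge_atTop (Λ * (2 * Real.pi)))).and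
    ((hlog.eventually_ge_atTop (M * Real.log M)).and (eventually_ge_atTop (10 : ℝ))))).exists_forall_of_atTop
  obtain ⟨T5, hT5, hbig⟩ := big_ev M (2 * C2) δ hδ
  refine ⟨max (max (max T1 T3) (max T4 T5)) 10, le_trans (by norm_num) (le_max_right _ _), fun T hT => ?_⟩
  have hTT1 : T1 ≤ T := (((le_max_left _ _).trans (le_max_left _ _)).trans (le_max_left _ _)).trans hT
  have hTT3 : T3 ≤ T := (((le_max_right _ _).trans (le_max_left _ _)).trans (le_max_left _ _)).trans hT
  have hTT4 : T4 ≤ T := (((le_max_left _ _).trans (le_max_right _ _)).trans (le_max_left _ _)).trans hT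
  have hTT5 : T5 ≤ T := (((le_max_right _ _).trans (le_max_right _ _)).trans (le_max_left _ _)).trans hT
  obtain ⟨⟨g1, g2⟩, g3, hT10⟩ := hT4 T hTT4
  obtain ⟨-, -, g4, -⟩ := hbig T hTT5
  have hL0 : 0 < Real.log T := Real.log_pos (by linarith)
  set u : ℝ := 2 * Real.pi / Real.log T with hu
  have hu0 : 0 < u := by positivity
  have hΛu : Λ * u ≤ 1 := by
    rw [hu, ← mul_div_assoc, div_le_one hL0]
    exact g2
  have hxu : ∀ y : ℝ, |y| ≤ Λ → |y| * u ≤ 1 := fun y hy =>
    (mul_le_mul_of_nonneg_right hy hu0.le).trans hΛu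
  have hr0 : (0 : ℝ) ≤ r := Nat.cast_nonneg _
  have hMu : M * u ≤ 1 := by
    refine le_trans (mul_le_mul_of_nonneg_right ?_ hu0.le) hΛu
    rw [hΛ]; linarith
  -- the sets
  set J : Finset ℕ := {0, k, r, r + k} with hJ
  have hJc : (J.card : ℝ) ≤ 4 := by exact_mod_cast Finset.card_le_four
  have hJb : ∀ j ∈ J, (j : ℝ) ≤ r + k := by
    intro j hj
    have : j ≤ r + k := by
      simp only [hJ, Finset.mem_insert, Finset.mem_singleton] at hj
      omega
    exact_mod_cast this
  set Uj : ℕ → Set ℝ := fun j => (⋃ i ∈ Finset.Icc (-(W : ℤ)) W, Bd T (j + i) j ω) ∪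
    (Bd T (j + W) 0 (W / 2) ∪ Bd T (j - W) 0 (W / 2)) with hUj
  set D : Set ℝ := {t | t ∈ Icc T (2 * T) ∧ |Ds k r T t| ≤ x * sk} with hD
  set U : Set ℝ := (⋃ j ∈ J, Uj j) ∪ (Bd T M 0 ω ∪ D) with hU
  have hDm : MeasurableSet D := measurableSet_Icc.inter
    (measurableSet_le ((Ds_meas _ _ _).abs) measurable_const)
  have hUjm : ∀ j, MeasurableSet (Uj j) := fun j =>
    (Finset.measurableSet_biUnion _ fun i _ => Bd_meas _ _ _ _).union ((Bd_meas _ _ _ _).union (Bd_meas _ _ _ _))
  have hUm : MeasurableSet U :=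
    (Finset.measurableSet_biUnion _ fun j _ => hUjm j).union ((Bd_meas _ _ _ _).union hDm)
  -- the measures
  have m1 : ∀ j ∈ J, ∀ i ∈ Finset.Icc (-(W : ℤ)) W, volume.real (Bd T (j + i) j ω) ≤
      T * ((C3 + Real.log (1 + W)) / ω ^ 2) := by
    intro j hj i hi
    rw [Finset.mem_Icc] at hi
    have hiW : |(i : ℝ)| ≤ W := by
      rw [abs_le]
      exact ⟨by exact_mod_cast hi.1, by exact_mod_cast hi.2⟩
    have hj0 : (0 : ℝ) ≤ j := Nat.cast_nonneg _
    have hjb := hJb j hj
    have hi' := abs_le.1 hiW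
    apply hBd T hTT3 _ _ _ _ hω0 hW1'
    · rw [add_sub_cancel_left]; exact hiW
    · refine le_trans ?_ g1
      have hWΛ : (W : ℝ) ≤ Λ := by rw [hΛ]; linarith
      exact mul_le_mul hWΛ (Real.log_le_log (by linarith) hWΛ) (Real.log_nonneg hW1') (by linarith)
    · apply hxu
      rw [abs_le, hΛ]
      constructor <;> linarith
    · apply hxu
      rw [abs_le, hΛ]
      constructor <;> linarith
  have hlogR : Real.log (1 + (r + k + W)) ≤ 2 + A * Real.log k := by
    have hrA' : (r : ℝ) ≤ (k : ℝ) ^ A := by exact_mod_cast hrA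
    have hkA : (k : ℝ) ≤ (k : ℝ) ^ A := by
      calc (k : ℝ) = (k : ℝ) ^ 1 := (pow_one _).symm
        _ ≤ (k : ℝ) ^ A := pow_le_pow_right₀ (by linarith) hA
    have h1 : 1 + ((r : ℝ) + k + W) ≤ 4 * (k : ℝ) ^ A := by linarith
    have h2 : Real.log (1 + (r + k + W)) ≤ Real.log (4 * (k : ℝ) ^ A) :=
      Real.log_le_log (by linarith) h1
    rw [Real.log_mul (by norm_num) (by positivity), Real.log_pow] at h2
    have h3 : Real.log 4 ≤ 2 := by
      have : (4 : ℝ) = 2 ^ 2 := by norm_num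
      rw [this, Real.log_pow]
      have := Real.log_two_lt_d9
      push_cast
      linarith
    linarith
  have m2 : ∀ j ∈ J, ∀ e : ℝ, |e| ≤ W → volume.real (Bd T (j + e) 0 (W / 2)) ≤
      T * ((C3 + (2 + A * Real.log k)) / (W / 2) ^ 2) := by
    intro j hj e he
    have he' := abs_le.1 he
    have hj0 : (0 : ℝ) ≤ j := Nat.cast_nonneg _
    have hjb := hJb j hj
    have h1 := hBd T hTT3 (j + e) 0 (W / 2) (r + k + W) (by linarith) (by linarith)
      (by rw [sub_zero, abs_le]; constructor <;> linarith)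
      (by
        refine le_trans ?_ g1
        have hWΛ : (r : ℝ) + k + W ≤ Λ := by rw [hΛ]; linarith
        exact mul_le_mul hWΛ (Real.log_le_log (by linarith) hWΛ) (Real.log_nonneg (by linarith)) (by linarith))
      (by apply hxu; rw [abs_le, hΛ]; constructor <;> linarith)
      (by rw [abs_zero, zero_mul]; norm_num)
    refine h1.trans ?_
    apply mul_le_mul_of_nonneg_left _ (by linarith)
    apply div_le_div_of_nonneg_right _ (by positivity)
    linarith
  have m3 : volume.real (Bd T M 0 ω) ≤ T * ((C3 + Real.log (1 + M)) / ω ^ 2) := by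
    apply hBd T hTT3 _ _ _ _ hω0 hM1
    · rw [sub_zero, abs_of_pos hM0]
    · exact g3
    · apply hxu; rw [abs_of_pos hM0, hΛ]; linarith
    · rw [abs_zero, zero_mul]; norm_num
  have m4 : volume.real D ≤ (8 * x + δ) * T := by
    have h1 := hR k r T hk4 hkr' (by linarith) (by
      rw [one_mul]
      refine le_trans ?_ g1
      have hWΛ : (k : ℝ) + r ≤ Λ := by rw [hΛ]; linarith
      exact mul_le_mul hWΛ (Real.log_le_log (by linarith) hWΛ) (Real.log_nonneg (by linarith)) (by linarith))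
    exact h1
  have mU : volume.real U ≤ (8 * x + 2 * δ) * T := by
    have a1 : ∀ j ∈ J, volume.real (Uj j) ≤ (2 * W + 1) * (T * ((C3 + Real.log (1 + W)) / ω ^ 2)) +
        2 * (T * ((C3 + (2 + A * Real.log k)) / (W / 2) ^ 2)) := by
      intro j hj
      have b1 := measureReal_union_le (μ := volume) (⋃ i ∈ Finset.Icc (-(W : ℤ)) W, Bd T (j + i) j ω)
        (Bd T (j + W) 0 (W / 2) ∪ Bd T (j - W) 0 (W / 2))
      have b2 := measureReal_union_le (μ := volume) (Bd T (j + W) 0 (W / 2)) (Bd T (j - W) 0 (W / 2))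
      have b3 := measureReal_biUnion_finset_le (μ := volume) (Finset.Icc (-(W : ℤ)) W)
        (fun i => Bd T (j + i) j ω)
      have b4 : ∑ i ∈ Finset.Icc (-(W : ℤ)) W, volume.real (Bd T (j + i) j ω) ≤
          (2 * W + 1) * (T * ((C3 + Real.log (1 + W)) / ω ^ 2)) := by
        refine (Finset.sum_le_sum (m1 j hj)).trans (le_of_eq ?_)
        rw [Finset.sum_const, Int.card_Icc, nsmul_eq_mul]
        congr 1
        have : ((W : ℤ) + 1 - -(W : ℤ)).toNat = 2 * W + 1 := by omega
        rw [this]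
        push_cast
        ring
      have b5 := m2 j hj W (by rw [abs_of_nonneg (by linarith)])
      have b6 := m2 j hj (-W) (by rw [abs_neg, abs_of_nonneg (by linarith)])
      rw [← sub_eq_add_neg] at b6
      linarith
    have a2 := measureReal_union_le (μ := volume) (⋃ j ∈ J, Uj j) (Bd T M 0 ω ∪ D)
    have a3 := measureReal_union_le (μ := volume) (Bd T M 0 ω) D
    have a4 := measureReal_biUnion_finset_le (μ := volume) J Uj
    have hT0 : 0 ≤ T := by linarith
    have hlk : 0 ≤ Real.log k := Real.log_nonneg (by linarith)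
    have hlW : 0 ≤ Real.log (1 + (W : ℝ)) := Real.log_nonneg (by linarith)
    have hlM : 0 ≤ Real.log (1 + M) := Real.log_nonneg (by linarith)
    obtain ⟨Y, hY⟩ : ∃ Y : ℝ, Y = (2 * W + 1) * (T * ((C3 + Real.log (1 + W)) / ω ^ 2)) +
        2 * (T * ((C3 + (2 + A * Real.log k)) / (W / 2) ^ 2)) := ⟨_, rfl⟩
    have hY0 : 0 ≤ Y := by rw [hY]; positivity
    rw [← hY] at a1
    have a5 : ∑ j ∈ J, volume.real (Uj j) ≤ 4 * Y := by
      refine (Finset.sum_le_sum a1).trans ?_
      rw [Finset.sum_const, nsmul_eq_mul]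
      exact mul_le_mul_of_nonneg_right hJc hY0
    have a6 : 4 * Y + T * ((C3 + Real.log (1 + M)) / ω ^ 2) ≤ δ * T := by
      have := mul_le_mul_of_nonneg_left hnum hT0
      rw [hY]
      linarith
    rw [hU]
    linarith
  -- the zeros
  have hlM : 0 ≤ Real.log (1 + M) := Real.log_nonneg (by linarith)
  set s : ℝ := Real.sqrt (C1 + Real.log (1 + M)) with hsd
  have hs0 : 0 < s := Real.sqrt_pos.2 (by linarith)
  have hs2 : s ^ 2 = C1 + Real.log (1 + M) := Real.sq_sqrt (by linarith)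
  set F := (Finset.Ioc (NZ T) (NZ (2 * T))).filter (fun n =>
      |ord (n + (r + k)) - ord (n + r) - ord (n + k) + ord n| ≤ x / 2 * sk * u) with hF
  set S := F.filter (fun n => T + 2 ≤ ord n ∧ ord n ≤ 2 * T - 1) with hS
  have hmem : ∀ n ∈ F, NZ T < n ∧ n ≤ NZ (2 * T) ∧
      |ord (n + (r + k)) - ord (n + r) - ord (n + k) + ord n| ≤ x / 2 * sk * u := by
    intro n hn
    rw [hF, Finset.mem_filter, Finset.mem_Ioc] at hn
    exact ⟨hn.1.1, hn.1.2, hn.2⟩
  have hpalm := palmG (T := T) (M := M) (s := s) (by linarith) hM0 hs0 S U hUm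
    (fun n hn => by have := (hmem n (Finset.mem_filter.1 hn).1).1; omega)
    (fun n hn => by
      have := (Finset.mem_filter.1 hn).2.1
      rw [← hu]
      linarith)
    (fun n hn => by have := (Finset.mem_filter.1 hn).2.2; linarith)
    (by
      intro n hn t ht1 ht2
      rw [← hu] at ht1
      obtain ⟨hnF, hn1, hn2⟩ := Finset.mem_filter.1 hn
      obtain ⟨b1, b2, b3⟩ := hmem n hnF
      have hn0 : 1 ≤ n := by omega
      have htI : t ∈ Icc (T + 1) (2 * T - 1) := ⟨by linarith, by linarith⟩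
      by_contra hcon
      rw [hU, mem_union, mem_union, not_or, not_or] at hcon
      obtain ⟨n1, n2, n3⟩ := hcon
      simp only [mem_iUnion, not_exists] at n1
      have hBdn : ∀ y y' z : ℝ, t ∉ Bd T y y' z →
          |(NZ (t + y * u) : ℝ) - NZ (t + y' * u) - (y - y')| ≤ z := by
        intro y y' z hh
        by_contra hc
        push Not at hc
        exact hh ⟨htI, hc⟩
      have p0 := hBdn _ _ _ n2
      rw [zero_mul, add_zero, sub_zero] at p0
      have pj : ∀ j ∈ J, |(ord (n + j) - t) / u - j - (n + j - NZ (t + j * u))| ≤ ω + 1 := by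
        intro j hj
        have q0 := n1 j hj
        simp only [hUj, mem_union, not_or, mem_iUnion, not_exists] at q0
        obtain ⟨q1, q2, q3⟩ := q0
        refine pos_est (M := M) (W := W) hu0 hn0 ht2 ht1 ?_ ?_ ?_ ?_ hMW
        · exact (abs_le.1 p0).2
        · have := hBdn _ _ _ q2
          rwa [zero_mul, add_zero, sub_zero] at this
        · have := hBdn _ _ _ q3
          rwa [zero_mul, add_zero, sub_zero] at this
        · intro i hi1 hi2
          have := hBdn _ _ _ (q1 i (Finset.mem_Icc.2 ⟨hi1, hi2⟩))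
          rwa [add_sub_cancel_left] at this
      have e0 := abs_le.1 (pj 0 (by simp [hJ]))
      have e1 := abs_le.1 (pj k (by simp [hJ]))
      have e2 := abs_le.1 (pj r (by simp [hJ]))
      have e3 := abs_le.1 (pj (r + k) (by simp [hJ]))
      rw [Nat.cast_zero, zero_mul, add_zero, add_zero, add_zero] at e0
      push_cast at e3
      apply n3
      rw [hD]
      refine ⟨⟨by linarith [htI.1], by linarith [htI.2]⟩, ?_⟩
      rw [Ds_u, ← hu]
      have b4 : |(ord (n + (r + k)) - ord (n + r) - ord (n + k) + ord n) / u| ≤ x / 2 * sk := by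
        rw [abs_div, abs_of_pos hu0, div_le_iff₀ hu0]
        exact b3
      have b5 := abs_le.1 b4
      have b6 : (ord (n + (r + k)) - ord (n + r) - ord (n + k) + ord n) / u =
          ((ord (n + (r + k)) - t) / u) - ((ord (n + r) - t) / u) - ((ord (n + k) - t) / u) +
          ((ord n - t) / u) := by ring
      rw [b6] at b5
      have hfin : 4 * (ω + 1) ≤ x / 2 * sk := by
        rw [hω]
        have h1 : 16 ≤ x * sk := by
          have := mul_le_mul_of_nonneg_left hk2 hx.le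
          rwa [mul_div_cancel₀ _ hx.ne'] at this
        linarith
      rw [abs_le]
      constructor <;> linarith [e0.1, e0.2, e1.1, e1.2, e2.1, e2.2, e3.1, e3.2, b5.1, b5.2])
  rw [← hu] at hpalm
  have hdev := hvar T hTT1 M hM0 g3
  have hdev2 : (1 / s) * ∫ t in Icc T (2 * T), dev T M t ≤ s * T := by
    calc (1 / s) * ∫ t in Icc T (2 * T), dev T M t ≤ (1 / s) * (T * s ^ 2) := by
          rw [hs2]; exact mul_le_mul_of_nonneg_left hdev (by positivity)
      _ = s * T := by field_simp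
  have hUT : volume.real (U ∩ Icc T (2 * T)) ≤ (8 * x + 2 * δ) * T := by
    refine le_trans (measureReal_mono inter_subset_left ?_) mU
    have hBdf : ∀ y y' z : ℝ, volume (Bd T y y' z) ≠ ⊤ := fun y y' z =>
      ne_top_of_le_ne_top (by rw [Real.volume_Icc]; exact ENNReal.ofReal_ne_top)
        (measure_mono (show Bd T y y' z ⊆ Icc (T + 1) (2 * T - 1) from fun t ht => ht.1))
    have hDf : volume D ≠ ⊤ := ne_top_of_le_ne_top (by rw [Real.volume_Icc]; exact ENNReal.ofReal_ne_top)
        (measure_mono (show D ⊆ Icc T (2 * T) from fun t ht => ht.1))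
    have hsubU : U ⊆ Icc T (2 * T) := by
      rintro t (ht | ht | ht)
      · simp only [mem_iUnion] at ht
        obtain ⟨j, hj, ht⟩ := ht
        have hI : ∀ y y' z : ℝ, t ∈ Bd T y y' z → t ∈ Icc T (2 * T) := fun y y' z h =>
          ⟨by linarith [h.1.1], by linarith [h.1.2]⟩
        rcases ht with ht | ht | ht
        · simp only [mem_iUnion] at ht
          obtain ⟨i, hi, ht⟩ := ht
          exact hI _ _ _ ht
        · exact hI _ _ _ ht
        · exact hI _ _ _ ht
      · exact ⟨by linarith [ht.1.1], by linarith [ht.1.2]⟩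
      · exact ht.1
    exact ne_top_of_le_ne_top (by rw [Real.volume_Icc]; exact ENNReal.ofReal_ne_top) (measure_mono hsubU)
  have hS1 : M * u * S.card ≤ M * ((8 * x + 2 * δ) * T) + δ * M * T := by
    have a1 : M * volume.real (U ∩ Icc T (2 * T)) ≤ M * ((8 * x + 2 * δ) * T) :=
      mul_le_mul_of_nonneg_left hUT hM0.le
    have a2 : s * T ≤ δ * M * T := mul_le_mul_of_nonneg_right hM (by linarith)
    linarith
  have hS2 : (S.card : ℝ) ≤ T * Real.log T / (2 * Real.pi) * (8 * x + 3 * δ) := by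
    have a1 : u * S.card ≤ (8 * x + 3 * δ) * T := by
      have : M * (u * S.card) ≤ M * ((8 * x + 3 * δ) * T) := by linarith
      exact le_of_mul_le_mul_left this hM0
    have a2 : T * Real.log T / (2 * Real.pi) * (8 * x + 3 * δ) = ((8 * x + 3 * δ) * T) / u := by
      rw [hu]; field_simp
    rw [a2, le_div_iff₀ hu0]
    linarith
  have hrest : ((F.filter (fun n => ¬ (T + 2 ≤ ord n ∧ ord n ≤ 2 * T - 1))).card : ℝ) ≤
      2 * (2 * C2 * Real.log (2 * T)) := by
    have hsub : F.filter (fun n => ¬ (T + 2 ≤ ord n ∧ ord n ≤ 2 * T - 1)) ⊆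
        (Finset.Ioc (NZ T) (NZ (T + 1)) ∪ Finset.Ioc (NZ (T + 1)) (NZ (T + 1 + 1))) ∪
        Finset.Ioc (NZ (2 * T - 1)) (NZ (2 * T - 1 + 1)) := by
      intro n hn
      rw [Finset.mem_filter] at hn
      obtain ⟨b1, b2⟩ := hn
      obtain ⟨a1, a2, a3⟩ := hmem n b1
      rw [Finset.mem_union, Finset.mem_union, Finset.mem_Ioc, Finset.mem_Ioc, Finset.mem_Ioc]
      by_cases b3 : T + 2 ≤ ord n
      · right
        have b4 : ¬ (ord n ≤ 2 * T - 1) := fun hc => b2 ⟨b3, hc⟩
        push Not at b4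
        have e : 2 * T - 1 + 1 = 2 * T := by ring
        rw [e]
        refine ⟨?_, a2⟩
        by_contra hcon
        push Not at hcon
        have := (SG.ord_le_iff (by omega) _).mpr hcon
        linarith
      · left
        push Not at b3
        by_cases b5 : n ≤ NZ (T + 1)
        · left; exact ⟨a1, b5⟩
        · right
          refine ⟨by omega, (SG.ord_le_iff (by omega) _).mp ?_⟩
          linarith
    have h1 := ((Finset.card_le_card hsub).trans (Finset.card_union_le _ _)).trans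
      (Nat.add_le_add_right (Finset.card_union_le _ _) _)
    rw [Nat.card_Ioc, Nat.card_Ioc, Nat.card_Ioc] at h1
    have hmono : NZ T ≤ NZ (T + 1) := SG.NZ_mono (by linarith)
    have hmono1 : NZ (T + 1) ≤ NZ (T + 1 + 1) := SG.NZ_mono (by linarith)
    have hmono2 : NZ (2 * T - 1) ≤ NZ (2 * T - 1 + 1) := SG.NZ_mono (by linarith)
    have h2 : ((F.filter (fun n => ¬ (T + 2 ≤ ord n ∧ ord n ≤ 2 * T - 1))).card : ℝ) ≤
        ((NZ (T + 1) - NZ T : ℕ) : ℝ) + ((NZ (T + 1 + 1) - NZ (T + 1) : ℕ) : ℝ) +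
        ((NZ (2 * T - 1 + 1) - NZ (2 * T - 1) : ℕ) : ℝ) := by
      exact_mod_cast h1
    rw [Nat.cast_sub hmono, Nat.cast_sub hmono1, Nat.cast_sub hmono2] at h2
    have h3 := huc T (by linarith)
    have h3' := huc (T + 1) (by linarith)
    have h4 := huc (2 * T - 1) (by linarith)
    have a1 : Real.log T ≤ Real.log (2 * T) := Real.log_le_log (by linarith) (by linarith)
    have a2 : C2 * Real.log T ≤ C2 * Real.log (2 * T) := mul_le_mul_of_nonneg_left a1 hC2.le
    have a1' : Real.log (T + 1) ≤ Real.log (2 * T) := Real.log_le_log (by linarith) (by linarith)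
    have a2' : C2 * Real.log (T + 1) ≤ C2 * Real.log (2 * T) := mul_le_mul_of_nonneg_left a1' hC2.le
    have a3 : Real.log (2 * T - 1) ≤ Real.log (2 * T) := Real.log_le_log (by linarith) (by linarith)
    have a4 : C2 * Real.log (2 * T - 1) ≤ C2 * Real.log (2 * T) := mul_le_mul_of_nonneg_left a3 hC2.le
    have a5 : 0 ≤ C2 * Real.log (2 * T) := mul_nonneg hC2.le (Real.log_nonneg (by linarith))
    linarith
  have hsplit := Finset.card_filter_add_card_filter_not (s := F)
    (fun n => T + 2 ≤ ord n ∧ ord n ≤ 2 * T - 1)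
  have hsplit' : (F.card : ℝ) = S.card +
      ((F.filter (fun n => ¬ (T + 2 ≤ ord n ∧ ord n ≤ 2 * T - 1))).card : ℝ) := by
    exact_mod_cast hsplit.symm
  have hTL : 0 ≤ T * Real.log T / (2 * Real.pi) := by positivity
  rw [hsplit']
  have : T * Real.log T / (2 * Real.pi) * (8 * x + 3 * δ) + δ * (T * Real.log T / (2 * Real.pi)) ≤
      (8 * x + ε) * (T * Real.log T / (2 * Real.pi)) := by
    have e : T * Real.log T / (2 * Real.pi) * (8 * x + 3 * δ) + δ * (T * Real.log T / (2 * Real.pi)) =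
      (8 * x + 4 * δ) * (T * Real.log T / (2 * Real.pi)) := by ring
    rw [e]
    apply mul_le_mul_of_nonneg_right _ hTL
    rw [hδd]; linarith
  linarith

end Pool.Agent.X112.SD
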