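import Pool.Agent.X112.SD.Im
import Pool.Agent.Y743.CL.St

/-! # The second differences of the number of ordinates in a window -/

set_option autoImplicit false

namespace Pool.Agent.X112.SD

open Complex Filter Topology MeasureTheory Set
open Pool.Agent.Y743.CL
open SG (NZ)

/-- the second difference of the counting function -/
noncomputable def Ds (a b T t : ℝ) : ℝ :=
  ((NZ (t + 2 * Real.pi * b / Real.log T + 2 * Real.pi * a / Real.log T) : ℝ) -
    NZ (t + 2 * Real.pi * b / Real.log T)) -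
  ((NZ (t + 2 * Real.pi * a / Real.log T) : ℝ) - NZ t)

lemma Ds_eq (lam κ a b T t : ℝ) : Ds a b T t =
    er lam κ T a (t + 2 * Real.pi * b / Real.log T) - er lam κ T a t -
    (G (cs (rc (Real.log T / lam) (2 * Real.pi * a / Real.log T)) (2 * Real.pi * b / Real.log T)) (XK κ T)
      (t + (2 * Real.pi * a / Real.log T / 2 + 2 * Real.pi * b / Real.log T / 2))).im := by
  have h := G_diff_re (rc (Real.log T / lam) (2 * Real.pi * a / Real.log T)) (XK κ T)
    (2 * Real.pi * b / Real.log T) (t + 2 * Real.pi * a / Real.log T / 2)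
  have e1 : t + 2 * Real.pi * a / Real.log T / 2 + 2 * Real.pi * b / Real.log T / 2 =
    t + (2 * Real.pi * a / Real.log T / 2 + 2 * Real.pi * b / Real.log T / 2) := by ring
  rw [e1] at h
  rw [← h]
  unfold Ds er
  have e2 : t + 2 * Real.pi * a / Real.log T / 2 + 2 * Real.pi * b / Real.log T =
    t + 2 * Real.pi * b / Real.log T + 2 * Real.pi * a / Real.log T / 2 := by ring
  rw [e2]
  ring

/-- the variance is large -/
lemma V_low (B : ℝ) (hB : 1 ≤ B) : ∃ lam C C' T0 : ℝ, 16 ≤ lam ∧ 0 < C ∧ 0 < C' ∧ 10 ≤ T0 ∧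
    (∀ T : ℝ, T0 ≤ T → ∀ a : ℝ, lam ≤ a → a * Real.log a ≤ B * Real.log T →
    ∀ κ : ℝ, 0 < κ → κ ≤ 1 / 8 → 8 ≤ κ * Real.log T →
    IntervalIntegrable (fun t => er lam κ T a t ^ 2) volume (T + Real.log T) (2 * T - Real.log T - 7) ∧
    ∫ t in (T + Real.log T)..(2 * T - Real.log T - 7), er lam κ T a t ^ 2 ≤
      C * (1 + Real.log (1 / κ)) * T) ∧
    (∀ T : ℝ, T0 ≤ T → ∀ a b : ℝ, lam ≤ a → a ≤ b → (a + b) * Real.log (a + b) ≤ B * Real.log T →
    ∀ κ : ℝ, 0 < κ → κ ≤ 1 / 8 → 8 ≤ κ * Real.log T →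
    4 / Real.pi ^ 2 * Real.log a - C' * (1 + Real.log (1 / κ)) ≤
      VS (cs (rc (Real.log T / lam) (2 * Real.pi * a / Real.log T)) (2 * Real.pi * b / Real.log T)) (XK κ T)) := by
  obtain ⟨lam, C, T0, hlam, hC, hT0, hcomb⟩ := comb B hB
  have hpi := Real.pi_pos
  have hll : 0 ≤ Real.log (2 * lam) := Real.log_nonneg (by linarith)
  refine ⟨lam, C, 10 * C + 8 / Real.pi ^ 2 * Real.log (2 * lam) + 4 / Real.pi ^ 2, T0, hlam, hC, by positivity, hT0,
    fun T hT a ha haL κ hκ hκ8 hκT => ⟨(hcomb T hT a ha haL κ hκ hκ8 hκT).1,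
      (hcomb T hT a ha haL κ hκ hκ8 hκT).2.1⟩, fun T hT a b ha hab habL κ hκ hκ8 hκT => ?_⟩
  have hlogκ : 0 ≤ Real.log (1 / κ) := by
    apply Real.log_nonneg
    rw [le_div_iff₀ hκ]
    linarith
  set e := 1 + Real.log (1 / κ) with he
  have he1 : 1 ≤ e := by linarith
  have hab0 : 0 < a + b := by linarith
  have hmono : ∀ x : ℝ, lam ≤ x → x ≤ a + b → x * Real.log x ≤ B * Real.log T := by
    intro x h1 h2
    refine le_trans ?_ habL
    have h3 : 0 ≤ Real.log x := Real.log_nonneg (by linarith)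
    exact mul_le_mul h2 (Real.log_le_log (by linarith) h2) h3 hab0.le
  have key : ∀ x : ℝ, lam ≤ x → x ≤ a + b →
      |VS (rc (Real.log T / lam) (2 * Real.pi * x / Real.log T)) (XK κ T) -
      2 / Real.pi ^ 2 * Real.log x| ≤ C * e := fun x h1 h2 =>
    (hcomb T hT x h1 (hmono x h1 h2) κ hκ hκ8 hκT).2.2
  have k1 := abs_le.1 (key a ha (by linarith))
  have k2 := abs_le.1 (key b (by linarith) (by linarith))
  have k3 := abs_le.1 (key (a + b) (by linarith) le_rfl)
  have hlogab : 0 ≤ Real.log (a + b) := Real.log_nonneg (by linarith)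
  have k4 : VS (rc (Real.log T / lam) (2 * Real.pi * (b - a) / Real.log T)) (XK κ T) ≤
      2 / Real.pi ^ 2 * Real.log (a + b) + (4 * C + 8 / Real.pi ^ 2 * Real.log (2 * lam)) * e := by
    rcases le_or_gt lam (b - a) with h1 | h1
    · have h2 := abs_le.1 (key (b - a) h1 (by linarith))
      have h3 : Real.log (b - a) ≤ Real.log (a + b) := Real.log_le_log (by linarith) (by linarith)
      have h4 : 2 / Real.pi ^ 2 * Real.log (b - a) ≤ 2 / Real.pi ^ 2 * Real.log (a + b) :=
        mul_le_mul_of_nonneg_left h3 (by positivity)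
      have h5 : 0 ≤ 8 / Real.pi ^ 2 * Real.log (2 * lam) * e := by positivity
      have h6 : 0 ≤ C * e := by positivity
      linarith [h2.2]
    · have h2 := abs_le.1 (key (b - a + lam) (by linarith) (by linarith))
      have h3 := abs_le.1 (key lam le_rfl (by linarith))
      have h4 := VS_small (Real.log T / lam) (2 * Real.pi * (b - a) / Real.log T)
        (2 * Real.pi * lam / Real.log T) (XK κ T)
      have e1 : 2 * Real.pi * (b - a) / Real.log T + 2 * Real.pi * lam / Real.log T =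
        2 * Real.pi * (b - a + lam) / Real.log T := by ring
      rw [e1] at h4
      have h5 : Real.log (b - a + lam) ≤ Real.log (2 * lam) := Real.log_le_log (by linarith) (by linarith)
      have h6 : Real.log lam ≤ Real.log (2 * lam) := Real.log_le_log (by linarith) (by linarith)
      have h7 : 2 / Real.pi ^ 2 * Real.log (b - a + lam) ≤ 2 / Real.pi ^ 2 * Real.log (2 * lam) :=
        mul_le_mul_of_nonneg_left h5 (by positivity)
      have h8 : 2 / Real.pi ^ 2 * Real.log lam ≤ 2 / Real.pi ^ 2 * Real.log (2 * lam) :=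
        mul_le_mul_of_nonneg_left h6 (by positivity)
      have h9 : 8 / Real.pi ^ 2 * Real.log (2 * lam) * 1 ≤ 8 / Real.pi ^ 2 * Real.log (2 * lam) * e :=
        mul_le_mul_of_nonneg_left he1 (by positivity)
      have h10 : 0 ≤ 2 / Real.pi ^ 2 * Real.log (a + b) := by positivity
      have h11 : 8 / Real.pi ^ 2 * Real.log (2 * lam) = 4 * (2 / Real.pi ^ 2 * Real.log (2 * lam)) := by ring
      rw [h11] at h9 ⊢
      linarith [h2.2, h3.2]
  have hv := VS_cs (Real.log T / lam) (2 * Real.pi * a / Real.log T) (2 * Real.pi * b / Real.log T) (XK κ T)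
  have e1 : 2 * Real.pi * a / Real.log T + 2 * Real.pi * b / Real.log T =
    2 * Real.pi * (a + b) / Real.log T := by ring
  have e2 : 2 * Real.pi * b / Real.log T - 2 * Real.pi * a / Real.log T =
    2 * Real.pi * (b - a) / Real.log T := by ring
  rw [e1, e2] at hv
  rw [hv]
  have h5 : Real.log (a + b) ≤ Real.log b + 1 := by
    have h6 : Real.log (a + b) ≤ Real.log (2 * b) := Real.log_le_log hab0 (by linarith)
    rw [Real.log_mul (by norm_num) (by linarith)] at h6
    have := Real.log_two_lt_d9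
    linarith
  have h6 : 4 / Real.pi ^ 2 * Real.log (a + b) ≤ 4 / Real.pi ^ 2 * (Real.log b + 1) :=
    mul_le_mul_of_nonneg_left h5 (by positivity)
  have h7 : 4 / Real.pi ^ 2 * 1 ≤ 4 / Real.pi ^ 2 * e := mul_le_mul_of_nonneg_left he1 (by positivity)
  have h8 : 4 / Real.pi ^ 2 = 2 * (2 / Real.pi ^ 2) := by ring
  rw [h8] at h6 h7 ⊢
  have h9 : 0 ≤ C * e := by positivity
  linarith [k1.1, k2.1, k3.2]

theorem seq_sd (B : ℝ) (hB : 1 ≤ B) : ∃ A0 : ℝ, 3 ≤ A0 ∧ ∀ a b T : ℕ → ℝ, (∀ j, A0 ≤ a j) →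
    (∀ j, a j ≤ b j) → (∀ j, 1 ≤ T j) → Tendsto a atTop atTop →
    (∀ j, (a j + b j) * Real.log (a j + b j) ≤ B * Real.log (T j)) → ∀ x ε : ℝ, 0 < x → 0 < ε →
    ∀ᶠ j in atTop, volume.real {t | t ∈ Icc (T j) (2 * T j) ∧
      |Ds (a j) (b j) (T j) t| ≤ x * Real.sqrt (Real.log (a j))} ≤ (8 * x + ε) * T j := by
  obtain ⟨lam, C, C', T0, hlam, hC, hC', hT0, hcomb, hvl⟩ := V_low B hB
  have hev : ∀ᶠ T : ℝ in atTop, 2 * Real.log T + 14 ≤ 1 * T / 2 := by
    have h1 : (fun T : ℝ => 2 * Real.log T + 14) =o[atTop] fun T : ℝ => T :=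
      (Real.isLittleO_log_id_atTop.const_mul_left 2).add (Asymptotics.isLittleO_const_id_atTop _)
    have h2 := h1.bound (c := 1 / 2) (by norm_num)
    filter_upwards [h2, eventually_ge_atTop 1] with T hT hT1
    rw [Real.norm_of_nonneg (by linarith : (0 : ℝ) ≤ T)] at hT
    have := (le_abs_self _).trans hT
    linarith
  obtain ⟨T3, hT3⟩ := hev.exists_forall_of_atTop
  have hpi := Real.pi_pos
  refine ⟨max (max lam 3) (max (B * max (Real.log (max T0 T3)) (Real.exp B)) (72 * B)),
    (le_max_right _ _).trans (le_max_left _ _), fun a b T ha hab hT1 hat haT x ε hx hε => ?_⟩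
  -- the basic facts
  have f1 : ∀ j, lam ≤ a j := fun j => ((le_max_left _ _).trans (le_max_left _ _)).trans (ha j)
  have f2 : ∀ j, 3 ≤ a j := fun j => ((le_max_right _ _).trans (le_max_left _ _)).trans (ha j)
  have f3 : ∀ j, B * max (Real.log (max T0 T3)) (Real.exp B) ≤ a j := fun j =>
    ((le_max_left _ _).trans (le_max_right _ _)).trans (ha j)
  have f4 : ∀ j, 72 * B ≤ a j := fun j =>
    ((le_max_right _ _).trans (le_max_right _ _)).trans (ha j)
  have f5 : ∀ j, 1 ≤ Real.log (a j) := fun j => by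
    rw [Real.le_log_iff_exp_le (by linarith [f2 j])]
    linarith [Real.exp_one_lt_d9, f2 j]
  have haT' : ∀ j, a j * Real.log (a j) ≤ B * Real.log (T j) := fun j => by
    refine le_trans ?_ (haT j)
    have h1 := f2 j
    have h2 := hab j
    have h3 : Real.log (a j) ≤ Real.log (a j + b j) := Real.log_le_log (by linarith) (by linarith)
    exact mul_le_mul (by linarith) h3 (by linarith [f5 j]) (by linarith)
  have f6 : ∀ j, a j / B ≤ Real.log (T j) := fun j => by
    rw [div_le_iff₀ (by linarith)]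
    have := haT' j
    have h1 : a j * 1 ≤ a j * Real.log (a j) :=
      mul_le_mul_of_nonneg_left (f5 j) (by linarith [f2 j])
    linarith
  have f6' : ∀ j, max (Real.log (max T0 T3)) (Real.exp B) ≤ Real.log (T j) := fun j => by
    refine le_trans ?_ (f6 j)
    rw [le_div_iff₀ (by linarith)]
    linarith [f3 j]
  have f7 : ∀ j, max T0 T3 ≤ T j := fun j => by
    have h0 : 0 < max T0 T3 := lt_of_lt_of_le (by linarith) (le_max_left T0 T3)
    rw [← Real.log_le_log_iff h0 (by linarith [hT1 j])]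
    exact (le_max_left _ _).trans (f6' j)
  have f8 : ∀ j, T0 ≤ T j := fun j => (le_max_left _ _).trans (f7 j)
  have f9 : ∀ j, 2 * Real.log (T j) + 14 ≤ T j / 2 := fun j => by
    have := hT3 (T j) ((le_max_right _ _).trans (f7 j))
    linarith
  have f10 : ∀ j, 0 < T j := fun j => by linarith [hT1 j]
  have f11 : ∀ j, 0 < Real.log (T j) := fun j => Real.log_pos (by linarith [f8 j])
  have f12 : ∀ j, 2 * Real.pi * b j / Real.log (T j) ≤ 7 := fun j => by
    have h1 : a j + b j ≤ Real.log (T j) :=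
      Pool.Agent.TH850.UV.range_le (by linarith [f2 j, hab j]) (by linarith)
        ((le_max_right _ _).trans (f6' j)) (haT j)
    rw [div_le_iff₀ (f11 j)]
    nlinarith [Real.pi_lt_d2, f2 j, hab j, f11 j]
  have f13 : ∀ j, 0 < 2 * Real.pi * b j / Real.log (T j) := fun j => by
    have h1 := f11 j
    have h2 : 0 < b j := by linarith [f2 j, hab j]
    positivity
  have hTt : Tendsto T atTop atTop := by
    refine tendsto_atTop_mono (fun j => ?_) (hat.atTop_div_const (by linarith : 0 < B))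
    have h1 := Real.log_le_sub_one_of_pos (f10 j)
    linarith [f6 j]
  have hLt : Tendsto (fun j => Real.log (a j)) atTop atTop := Real.tendsto_log_atTop.comp hat
  -- the parameters
  set κ : ℕ → ℝ := fun j => 1 / (8 + Real.log (a j)) with hκ
  have k1 : ∀ j, 0 < κ j := fun j => by
    have := f5 j
    simp only [hκ]; positivity
  have k2 : ∀ j, κ j ≤ 1 / 8 := fun j => by
    have := f5 j
    simp only [hκ]
    exact one_div_le_one_div_of_le (by norm_num) (by linarith)
  have k3 : ∀ j, 8 ≤ κ j * Real.log (T j) := fun j => by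
    have h1 := f5 j
    have h2 := haT' j
    simp only [hκ]
    rw [div_mul_eq_mul_div, one_mul, le_div_iff₀ (by linarith)]
    have h3 : 8 * (8 + Real.log (a j)) ≤ 72 * Real.log (a j) := by linarith
    have h4 : 72 * B * Real.log (a j) ≤ a j * Real.log (a j) :=
      mul_le_mul_of_nonneg_right (f4 j) (by linarith)
    have h5 : B * (72 * Real.log (a j)) ≤ B * Real.log (T j) := by linarith
    have h6 := le_of_mul_le_mul_left h5 (by linarith : 0 < B)
    linarith
  have k4 : ∀ j, Real.log (1 / κ j) = Real.log (8 + Real.log (a j)) := fun j => by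
    simp only [hκ]; rw [one_div_one_div]
  set L : ℕ → ℝ := fun j => Real.log (T j) with hL
  set h : ℕ → ℝ := fun j => 2 * Real.pi * a j / Real.log (T j) with hh
  set s : ℕ → ℝ := fun j => 2 * Real.pi * b j / Real.log (T j) with hs
  set X : ℕ → ℕ := fun j => XK (κ j) (T j) with hX
  set c : ℕ → ℕ → ℝ := fun j => cs (rc (Real.log (T j) / lam) (h j)) (s j) with hc
  set V : ℕ → ℝ := fun j => VS (c j) (X j) with hV
  have hcb := fun j => hcomb (T j) (f8 j) (a j) (f1 j) (haT' j) (κ j) (k1 j) (k2 j) (k3 j)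
  have hvb := fun j => hvl (T j) (f8 j) (a j) (b j) (f1 j) (hab j) (haT j) (κ j) (k1 j) (k2 j) (k3 j)
  -- q → 0
  set q : ℕ → ℝ := fun j => (1 + Real.log (8 + Real.log (a j))) / Real.log (a j) with hq
  have hq0 : Tendsto q atTop (𝓝 0) := small_log.comp hLt
  have hVq : ∀ j, (4 / Real.pi ^ 2 - C' * q j) * Real.log (a j) ≤ V j := fun j => by
    have h1 := hvb j
    rw [k4] at h1
    have h2 : 0 < Real.log (a j) := by linarith [f5 j]
    refine le_trans (le_of_eq ?_) h1
    simp only [hq]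
    field_simp
  have hqs : ∀ᶠ j in atTop, 1 / 3 * Real.log (a j) ≤ V j := by
    have h1 := hq0.const_mul C'
    rw [mul_zero] at h1
    have h3 : (2 : ℝ) / 5 < 4 / Real.pi ^ 2 := by
      have := Real.pi_lt_d2
      rw [lt_div_iff₀ (by positivity)]
      nlinarith [Real.pi_gt_three]
    filter_upwards [h1.eventually_le_const (show (0 : ℝ) < 2 / 5 - 1 / 3 by norm_num)] with j hj
    refine le_trans ?_ (hVq j)
    apply mul_le_mul_of_nonneg_right _ (by linarith [f5 j])
    linarith
  have hVt : Tendsto V atTop atTop :=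
    tendsto_atTop_mono' _ hqs (hLt.const_mul_atTop (by norm_num))
  -- the parameter η
  set η : ℝ := x / 20 with hη
  have hη0 : 0 < η := by positivity
  -- the central limit theorem
  have hclt := clt_im T (fun j => T j + L j + (h j / 2 + s j / 2))
    (fun j => 2 * T j - L j - 7 - s j + (h j / 2 + s j / 2)) X c
    (M := 4) (fun j p => cs_bd (div_pos (f11 j) (by linarith)) _ _ p) hTt f10
    (fun j => by
      have h1 := f9 j
      have h2 := f12 j
      simp only [hL, hs]; linarith [f10 j])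
    (by
      have h0 : Tendsto (fun j => (7 + s j) / T j) atTop (𝓝 0) := by
        refine squeeze_zero (fun j => ?_) (fun j => ?_) ((tendsto_const_nhds (x := (14 : ℝ))).div_atTop hTt)
        · have := f13 j; have := f10 j
          simp only [hs]; positivity
        · have h2 := f12 j
          exact div_le_div_of_nonneg_right (by simp only [hs]; linarith) (f10 j).le
      have h1 : Tendsto (fun j => 1 - (2 * (Real.log (T j) / T j ^ (1:ℝ)) + (7 + s j) / T j)) atTop
          (𝓝 (1 - (2 * 0 + 0))) := by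
        refine tendsto_const_nhds.sub (Tendsto.add ?_ h0)
        exact ((isLittleO_log_rpow_atTop (by norm_num : (0:ℝ) < 1)).tendsto_div_nhds_zero.comp hTt).const_mul 2
      rw [mul_zero, add_zero, sub_zero] at h1
      refine h1.congr fun j => ?_
      have := (f10 j).ne'
      rw [Real.rpow_one]
      simp only [hL]
      field_simp
      ring)
    (fun j => by
      simp only [hX]
      unfold XK
      apply Nat.le_floor
      push_cast
      exact Real.one_le_rpow (hT1 j) (k1 j).le)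
    (fun m => by
      filter_upwards [hLt.eventually_ge_atTop (2 * (m : ℝ))] with j hj
      have h1 : ((X j ^ m : ℕ) : ℝ) ≤ (T j ^ κ j) ^ m := by
        push_cast
        exact pow_le_pow_left₀ (Nat.cast_nonneg _) (Nat.floor_le (by have := f10 j; positivity)) m
      refine h1.trans ?_
      rw [← Real.rpow_natCast, ← Real.rpow_mul (f10 j).le, Real.sqrt_eq_rpow]
      apply Real.rpow_le_rpow_of_exponent_le (hT1 j)
      simp only [hκ]
      rw [div_mul_eq_mul_div, one_mul, div_le_iff₀ (by linarith [f5 j])]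
      linarith)
    hVt (-(4 * x)) (4 * x) (by linarith)
  have hgs : gs.real (Ioo (-(4 * x)) (4 * x)) ≤ 8 * x := by
    have h1 : gs.real (Ioo (-(4 * x)) (4 * x)) ≤ Ph (4 * x) - Ph (-(4 * x)) := by
      have h2 : gs.real (Iic (-(4 * x))) + gs.real (Ioo (-(4 * x)) (4 * x)) ≤ gs.real (Iic (4 * x)) := by
        rw [← measureReal_union (by
          rw [Set.disjoint_left]
          intro y h3 h4
          exact absurd h3 (not_le.2 h4.1)) measurableSet_Ioo]
        refine measureReal_mono ?_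
        rintro y (h3 | h3)
        · rw [mem_Iic] at h3 ⊢
          linarith
        · exact h3.2.le
      unfold Ph
      linarith
    have h2 := Ph_lip (show -(4 * x) ≤ 4 * x by linarith)
    linarith
  -- the eventual inequalities
  have e1 : ∀ᶠ j in atTop,
      volume.real {t ∈ Ioc (T j + L j + (h j / 2 + s j / 2)) (2 * T j - L j - 7 - s j + (h j / 2 + s j / 2)) |
      -(4 * x) < Real.sqrt 2 * ((G (c j) (X j) t).im / Real.sqrt (V j)) ∧
      Real.sqrt 2 * ((G (c j) (X j) t).im / Real.sqrt (V j)) < 4 * x} / T j ≤ 8 * x + ε / 10 :=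
    hclt.eventually_le_const (lt_of_le_of_lt hgs (by linarith))
  have e4 : ∀ᶠ j in atTop, C * q j / η ^ 2 ≤ ε / 10 := by
    have h1 := (hq0.const_mul C).div_const (η ^ 2)
    rw [mul_zero, zero_div] at h1
    exact h1.eventually_le_const (by positivity)
  have e5 : ∀ᶠ j in atTop, (2 * L j + 14) / T j ≤ ε / 10 := by
    have h1 : Tendsto (fun j => 2 * (Real.log (T j) / T j ^ (1:ℝ)) + 14 / T j) atTop
        (𝓝 (2 * 0 + 0)) := by
      refine Tendsto.add ?_ (tendsto_const_nhds.div_atTop hTt)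
      exact ((isLittleO_log_rpow_atTop (by norm_num : (0:ℝ) < 1)).tendsto_div_nhds_zero.comp hTt).const_mul 2
    rw [mul_zero, add_zero] at h1
    filter_upwards [h1.eventually_le_const (show (0 : ℝ) < ε / 10 by positivity)] with j hj
    refine le_trans (le_of_eq ?_) hj
    have := (f10 j).ne'
    rw [Real.rpow_one]
    simp only [hL]
    field_simp
  filter_upwards [e1, e4, e5, hVt.eventually_gt_atTop 0, hqs] with j g1 g4 g5 g6 g7
  obtain ⟨ci, cb⟩ := hcb j
  rw [k4] at cb
  have hTj := f10 j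
  have hLj := f11 j
  have hla : 0 < Real.log (a j) := by linarith [f5 j]
  have hsla : 0 < Real.sqrt (Real.log (a j)) := Real.sqrt_pos.2 hla
  have hs7 : s j ≤ 7 := f12 j
  have hs0 : 0 < s j := f13 j
  have hAB : T j + L j ≤ 2 * T j - L j - 7 := by
    have := f9 j
    simp only [hL]; linarith
  have hAB2 : T j + L j ≤ 2 * T j - L j - 7 - s j := by
    have := f9 j
    simp only [hL]; linarith
  have hLj' : 0 < L j := hLj
  set P : ℝ → Prop := fun t => -(4 * x) < Real.sqrt 2 * ((G (c j) (X j) t).im / Real.sqrt (V j)) ∧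
      Real.sqrt 2 * ((G (c j) (X j) t).im / Real.sqrt (V j)) < 4 * x with hP
  set I0 : Set ℝ := Ioc (T j + L j) (2 * T j - L j - 7) with hI0
  have hI0v : volume I0 ≠ ⊤ := by rw [hI0, Real.volume_Ioc]; exact ENNReal.ofReal_ne_top
  set I1 : Set ℝ := Ioc (T j + L j) (2 * T j - L j - 7 - s j) with hI1
  have hI1v : volume I1 ≠ ⊤ := by rw [hI1, Real.volume_Ioc]; exact ENNReal.ofReal_ne_top
  have hI10 : I1 ⊆ I0 := by
    rw [hI1, hI0]
    exact Ioc_subset_Ioc_right (by linarith)
  set E : Set ℝ := {t | η ^ 2 * Real.log (a j) ≤ er lam (κ j) (T j) (a j) t ^ 2} with hE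
  have hEm : MeasurableSet E := measurableSet_le measurable_const ((er_meas _ _ _ _).pow_const 2)
  -- Chebyshev
  have hcheb : volume.real (E ∩ I0) ≤ ε / 10 * T j := by
    have h1 := mul_meas_ge_le_integral_of_nonneg (μ := volume.restrict I0)
      (f := fun t => er lam (κ j) (T j) (a j) t ^ 2) (Eventually.of_forall fun _ => sq_nonneg _)
      (by
        have := ci
        rw [intervalIntegrable_iff_integrableOn_Ioc_of_le hAB] at this
        exact this) (η ^ 2 * Real.log (a j))
    rw [measureReal_restrict_apply hEm] at h1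
    have h2 : ∫ t in I0, er lam (κ j) (T j) (a j) t ^ 2 ≤
        C * (1 + Real.log (8 + Real.log (a j))) * T j := by
      rw [hI0, ← intervalIntegral.integral_of_le hAB]
      exact cb
    have h3 : volume.real (E ∩ I0) ≤ (C * (1 + Real.log (8 + Real.log (a j))) * T j) /
        (η ^ 2 * Real.log (a j)) := by
      rw [le_div_iff₀ (by positivity), mul_comm]
      exact h1.trans h2
    refine h3.trans ?_
    have h4 : (C * (1 + Real.log (8 + Real.log (a j))) * T j) /
        (η ^ 2 * Real.log (a j)) = (C * q j / η ^ 2) * T j := by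
      simp only [hq]
      field_simp
    rw [h4]
    exact mul_le_mul_of_nonneg_right g4 hTj.le
  have hsh : volume.real {t | t + s j ∈ E ∩ I0} ≤ ε / 10 * T j := by
    refine le_trans (le_of_eq ?_) hcheb
    have e : {t | t + s j ∈ E ∩ I0} = (fun t => t + s j) ⁻¹' (E ∩ I0) := rfl
    rw [e, Measure.real, Measure.real, measure_preimage_add_right]
  -- the set of the central limit theorem
  have hcl : volume.real {t | t + (h j / 2 + s j / 2) ∈
      {t ∈ Ioc (T j + L j + (h j / 2 + s j / 2)) (2 * T j - L j - 7 - s j + (h j / 2 + s j / 2)) | P t}} ≤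
      (8 * x + ε / 10) * T j := by
    rw [div_le_iff₀ hTj] at g1
    refine le_trans (le_of_eq ?_) g1
    have e : {t | t + (h j / 2 + s j / 2) ∈
      {t ∈ Ioc (T j + L j + (h j / 2 + s j / 2)) (2 * T j - L j - 7 - s j + (h j / 2 + s j / 2)) | P t}} =
      (fun t => t + (h j / 2 + s j / 2)) ⁻¹'
      {t ∈ Ioc (T j + L j + (h j / 2 + s j / 2)) (2 * T j - L j - 7 - s j + (h j / 2 + s j / 2)) | P t} := rfl
    rw [e, Measure.real, Measure.real, measure_preimage_add_right]
  -- the inclusion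
  have hsub : {t | t ∈ Icc (T j) (2 * T j) ∧ |Ds (a j) (b j) (T j) t| ≤ x * Real.sqrt (Real.log (a j))} ⊆
      (Icc (T j) (T j + L j) ∪ Icc (2 * T j - L j - 14) (2 * T j)) ∪
      ((E ∩ I0) ∪ ({t | t + s j ∈ E ∩ I0} ∪ {t | t + (h j / 2 + s j / 2) ∈
      {t ∈ Ioc (T j + L j + (h j / 2 + s j / 2)) (2 * T j - L j - 7 - s j + (h j / 2 + s j / 2)) | P t}})) := by
    intro t ht
    obtain ⟨ht1, ht2⟩ := ht
    rcases le_or_gt t (T j + L j) with h1 | h1
    · left; left; exact ⟨ht1.1, h1⟩
    rcases lt_or_ge (2 * T j - L j - 14) t with h2 | h2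
    · left; right; exact ⟨h2.le, ht1.2⟩
    right
    by_cases h3 : t ∈ E
    · left; exact ⟨h3, h1, by linarith⟩
    by_cases h4 : t + s j ∈ E
    · right; left; exact ⟨h4, by linarith, by linarith⟩
    right; right
    refine ⟨⟨by linarith, by linarith⟩, ?_⟩
    rw [hE, mem_ofPred_eq, not_le] at h3 h4
    have a1 : ∀ y : ℝ, y ^ 2 < η ^ 2 * Real.log (a j) → |y| < η * Real.sqrt (Real.log (a j)) := by
      intro y hy
      rw [← sq_lt_sq₀ (abs_nonneg _) (by positivity), sq_abs, mul_pow, Real.sq_sqrt hla.le]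
      exact hy
    have b3 := abs_lt.1 (a1 _ h3)
    have b4 := abs_lt.1 (a1 _ h4)
    have b5 := abs_le.1 ht2
    have hD := Ds_eq lam (κ j) (a j) (b j) (T j) t
    set g := (G (c j) (X j) (t + (h j / 2 + s j / 2))).im with hg
    have hD' : Ds (a j) (b j) (T j) t = er lam (κ j) (T j) (a j) (t + s j) -
      er lam (κ j) (T j) (a j) t - g := hD
    have b6 : |g| < (x + 2 * η) * Real.sqrt (Real.log (a j)) := by
      rw [abs_lt]
      constructor <;> linarith [b3.1, b3.2, b4.1, b4.2, b5.1, b5.2]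
    have b7 : |Real.sqrt 2 * (g / Real.sqrt (V j))| < 4 * x := by
      have hsv : 0 < Real.sqrt (V j) := Real.sqrt_pos.2 g6
      rw [← sq_lt_sq₀ (abs_nonneg _) (by positivity), sq_abs, mul_pow, div_pow, Real.sq_sqrt g6.le,
        Real.sq_sqrt (by norm_num : (0 : ℝ) ≤ 2)]
      have b8 : g ^ 2 < (x + 2 * η) ^ 2 * Real.log (a j) := by
        have := (sq_lt_sq₀ (abs_nonneg g) (by positivity)).2 b6
        rwa [sq_abs, mul_pow, Real.sq_sqrt hla.le] at this
      have b9 : (x + 2 * η) ^ 2 * Real.log (a j) ≤ (11 / 10 * x) ^ 2 * (3 * V j) := by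
        have e : x + 2 * η = 11 / 10 * x := by rw [hη]; ring
        rw [e]
        apply mul_le_mul_of_nonneg_left _ (sq_nonneg _)
        linarith
      rw [← mul_div_assoc, div_lt_iff₀ g6]
      have b10 : 0 < x ^ 2 * V j := by positivity
      nlinarith
    have b8 := abs_lt.1 b7
    exact ⟨b8.1, b8.2⟩
  have hfin1 : volume (Icc (T j) (T j + L j) ∪ Icc (2 * T j - L j - 14) (2 * T j)) ≠ ⊤ :=
    measure_union_ne_top (by rw [Real.volume_Icc]; exact ENNReal.ofReal_ne_top)
      (by rw [Real.volume_Icc]; exact ENNReal.ofReal_ne_top)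
  have hfin2 : volume (E ∩ I0) ≠ ⊤ := ne_top_of_le_ne_top hI0v (measure_mono inter_subset_right)
  have hfin3 : volume {t | t + s j ∈ E ∩ I0} ≠ ⊤ := by
    have e : {t | t + s j ∈ E ∩ I0} = (fun t => t + s j) ⁻¹' (E ∩ I0) := rfl
    rw [e, measure_preimage_add_right]
    exact hfin2
  have hfin4 : volume {t | t + (h j / 2 + s j / 2) ∈
      {t ∈ Ioc (T j + L j + (h j / 2 + s j / 2)) (2 * T j - L j - 7 - s j + (h j / 2 + s j / 2)) | P t}} ≠ ⊤ := by
    have e : {t | t + (h j / 2 + s j / 2) ∈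
      {t ∈ Ioc (T j + L j + (h j / 2 + s j / 2)) (2 * T j - L j - 7 - s j + (h j / 2 + s j / 2)) | P t}} =
      (fun t => t + (h j / 2 + s j / 2)) ⁻¹'
      {t ∈ Ioc (T j + L j + (h j / 2 + s j / 2)) (2 * T j - L j - 7 - s j + (h j / 2 + s j / 2)) | P t} := rfl
    rw [e, measure_preimage_add_right]
    refine ne_top_of_le_ne_top ?_ (measure_mono (sep_subset _ _))
    rw [Real.volume_Ioc]; exact ENNReal.ofReal_ne_top
  have h1 := measureReal_mono hsub (measure_union_ne_top hfin1
    (measure_union_ne_top hfin2 (measure_union_ne_top hfin3 hfin4)))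
  have h2 := measureReal_union_le (μ := volume) (Icc (T j) (T j + L j) ∪ Icc (2 * T j - L j - 14) (2 * T j))
    ((E ∩ I0) ∪ ({t | t + s j ∈ E ∩ I0} ∪ {t | t + (h j / 2 + s j / 2) ∈
      {t ∈ Ioc (T j + L j + (h j / 2 + s j / 2)) (2 * T j - L j - 7 - s j + (h j / 2 + s j / 2)) | P t}}))
  have h3 := measureReal_union_le (μ := volume) (Icc (T j) (T j + L j)) (Icc (2 * T j - L j - 14) (2 * T j))
  have h4 := measureReal_union_le (μ := volume) (E ∩ I0) ({t | t + s j ∈ E ∩ I0} ∪ {t | t + (h j / 2 + s j / 2) ∈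
      {t ∈ Ioc (T j + L j + (h j / 2 + s j / 2)) (2 * T j - L j - 7 - s j + (h j / 2 + s j / 2)) | P t}})
  have h5 := measureReal_union_le (μ := volume) {t | t + s j ∈ E ∩ I0} {t | t + (h j / 2 + s j / 2) ∈
      {t ∈ Ioc (T j + L j + (h j / 2 + s j / 2)) (2 * T j - L j - 7 - s j + (h j / 2 + s j / 2)) | P t}}
  rw [Real.volume_real_Icc_of_le (by linarith), Real.volume_real_Icc_of_le (by linarith)] at h3
  have h6 : 2 * L j + 14 ≤ ε / 10 * T j := by rwa [div_le_iff₀ hTj] at g5
  have h10 : 0 < ε * T j := by positivity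
  linarith

/-- uniform version -/
theorem stat_sd (B : ℝ) (hB : 1 ≤ B) (x ε : ℝ) (hx : 0 < x) (hε : 0 < ε) : ∃ R : ℝ, 3 ≤ R ∧
    ∀ a b T : ℝ, R ≤ a → a ≤ b → 1 ≤ T → (a + b) * Real.log (a + b) ≤ B * Real.log T →
    volume.real {t | t ∈ Icc T (2 * T) ∧ |Ds a b T t| ≤ x * Real.sqrt (Real.log a)} ≤
      (8 * x + ε) * T := by
  obtain ⟨A0, hA0, hseq⟩ := seq_sd B hB
  by_contra hcon
  push Not at hcon
  have hch : ∀ j : ℕ, ∃ p : ℝ × ℝ × ℝ, A0 + j ≤ p.1 ∧ p.1 ≤ p.2.1 ∧ 1 ≤ p.2.2 ∧
      (p.1 + p.2.1) * Real.log (p.1 + p.2.1) ≤ B * Real.log p.2.2 ∧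
      (8 * x + ε) * p.2.2 < volume.real {t | t ∈ Icc p.2.2 (2 * p.2.2) ∧
        |Ds p.1 p.2.1 p.2.2 t| ≤ x * Real.sqrt (Real.log p.1)} := by
    intro j
    obtain ⟨a, b, T, h1, h2, h3, h4, h5⟩ := hcon (A0 + j) (by have : (0 : ℝ) ≤ j := Nat.cast_nonneg j; linarith)
    exact ⟨(a, b, T), h1, h2, h3, h4, h5⟩
  choose p hp using hch
  have h := hseq (fun j => (p j).1) (fun j => (p j).2.1) (fun j => (p j).2.2)
    (fun j => by
      have : (0 : ℝ) ≤ j := Nat.cast_nonneg j
      have := (hp j).1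
      linarith) (fun j => (hp j).2.1) (fun j => (hp j).2.2.1)
    (tendsto_atTop_mono (fun j => by have := (hp j).1; linarith) tendsto_natCast_atTop_atTop)
    (fun j => (hp j).2.2.2.1) x ε hx hε
  obtain ⟨j, hj⟩ := h.exists
  exact absurd (hp j).2.2.2.2 (not_lt.2 hj)

end Pool.Agent.X112.SD
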