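import Pool.Agent.Y743.CL.Cb

/-! # Prime polynomials: imaginary parts, differences, variances of second differences -/

set_option autoImplicit false

namespace Pool.Agent.X112.SD

open Filter Topology MeasureTheory Complex
open Pool.Agent.Y743.CL
open Pool.Agent.Y41.SW (DP)

noncomputable section

/-- the central limit theorem for the imaginary part of prime polynomials -/
theorem clt_im (T A B : ℕ → ℝ) (X : ℕ → ℕ) (c : ℕ → ℕ → ℝ) {M : ℝ} (hM : ∀ j p, c j p ^ 2 ≤ M)
    (hT : Tendsto T atTop atTop) (hT0 : ∀ j, 0 < T j) (hAB : ∀ j, A j ≤ B j)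
    (hlen : Tendsto (fun j => (B j - A j) / T j) atTop (𝓝 1)) (hX1 : ∀ j, 1 ≤ X j)
    (hX : ∀ m : ℕ, ∀ᶠ j in atTop, ((X j ^ m : ℕ) : ℝ) ≤ Real.sqrt (T j))
    (hV : Tendsto (fun j => VS (c j) (X j)) atTop atTop) (a b : ℝ) (hab : a < b) :
    Tendsto (fun j => (volume.real {t ∈ Set.Ioc (A j) (B j) |
      a < Real.sqrt 2 * ((G (c j) (X j) t).im / Real.sqrt (VS (c j) (X j))) ∧
      Real.sqrt 2 * ((G (c j) (X j) t).im / Real.sqrt (VS (c j) (X j))) < b}) / T j) atTop
      (𝓝 ((ProbabilityTheory.gaussianReal 0 1).real (Set.Ioo a b))) := by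
  set μ : ℕ → Measure ℝ := fun j => ENNReal.ofReal (1 / T j) • volume.restrict (Set.Ioc (A j) (B j)) with hμ
  set f : ℕ → ℝ → ℂ := fun j t => -I * (G (c j) (X j) t / (Real.sqrt (VS (c j) (X j)) : ℂ)) with hf
  have hfc : ∀ j, Continuous (f j) := fun j => by
    simp only [hf]
    exact continuous_const.mul ((G_cont _ _).div_const _)
  have hfin : ∀ j, IsFiniteMeasure (μ j) := fun j => by
    simp only [hμ]
    refine ⟨?_⟩
    rw [Measure.smul_apply, smul_eq_mul, Measure.restrict_apply_univ, Real.volume_Ioc]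
    exact ENNReal.mul_lt_top ENNReal.ofReal_lt_top ENNReal.ofReal_lt_top
  have hint : ∀ (j : ℕ) (g : ℝ → ℂ), ∫ x, g x ∂(μ j) = ((1 / T j : ℝ) : ℂ) * ∫ t in (A j)..(B j), g t := by
    intro j g
    simp only [hμ]
    rw [integral_smul_measure, ENNReal.toReal_ofReal (by have := hT0 j; positivity),
      intervalIntegral.integral_of_le (hAB j)]
    simp
  have h := Pool.Agent.Y586.SW.t_GM μ f 1 zero_le_one hfin (fun j => (hfc j).measurable)
    (fun j k => by
      have h1 : IntegrableOn (fun x => ‖f j x‖ ^ k) (Set.Ioc (A j) (B j)) volume :=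
        (((hfc j).norm.pow k).integrableOn_Icc).mono_set Set.Ioc_subset_Icc_self
      simp only [hμ]
      exact h1.smul_measure ENNReal.ofReal_ne_top)
    (fun k l => by
      have h1 := (mom_lim T A B X c hM hT hAB hlen hX1 hX hV k l).const_mul ((-I) ^ k * I ^ l)
      have e : (if k = l then (k.factorial : ℂ) * ((1 : ℝ) : ℂ) else 0) =
          ((-I) ^ k * I ^ l) * (if k = l then (k.factorial : ℂ) else 0) := by
        by_cases hkl : k = l
        · subst hkl
          rw [if_pos rfl, if_pos rfl, ← mul_pow]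
          simp
        · rw [if_neg hkl, if_neg hkl, mul_zero]
      rw [e]
      refine h1.congr fun j => ?_
      rw [hint]
      have e2 : ∀ t, f j t ^ k * (starRingEnd ℂ) (f j t) ^ l =
          (((-I) ^ k * I ^ l) * ((1 / Real.sqrt (VS (c j) (X j)) ^ (k + l) : ℝ) : ℂ)) *
          (G (c j) (X j) t ^ k * (starRingEnd ℂ) (G (c j) (X j) t) ^ l) := by
        intro t
        simp only [hf]
        rw [map_mul, map_div₀, Complex.conj_ofReal, map_neg, Complex.conj_I, neg_neg, mul_pow, mul_pow,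
          div_pow, div_pow, pow_add]
        push_cast
        ring
      simp only [e2]
      rw [intervalIntegral.integral_const_mul]
      push_cast
      ring) a b hab
  rw [one_mul] at h
  refine h.congr fun j => ?_
  have e3 : ∀ x, (f j x).re = (G (c j) (X j) x).im / Real.sqrt (VS (c j) (X j)) := by
    intro x
    simp only [hf]
    rw [neg_mul, Complex.neg_re, Complex.I_mul_re, Complex.div_ofReal_im, neg_neg]
  simp only [e3]
  simp only [hμ]
  rw [Measure.real, Measure.smul_apply, smul_eq_mul, ENNReal.toReal_mul,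
    ENNReal.toReal_ofReal (by have := hT0 j; positivity)]
  rw [Measure.restrict_apply']
  · rw [Measure.real, one_div, div_eq_inv_mul]
    congr 3
    ext x
    simp only [Set.mem_inter_iff, Set.mem_ofPred_eq, Set.mem_Ioc]
    tauto
  · exact measurableSet_Ioc

/-- the coefficients of the difference of two shifts -/
def cs (c : ℕ → ℝ) (s : ℝ) (n : ℕ) : ℝ := c n * (2 * Real.sin (s / 2 * Real.log n))

lemma term_diff (n : ℕ) (hn : n ≠ 0) (s t : ℝ) :
    (n : ℂ) ^ (-((t + s : ℝ) : ℂ) * I) - (n : ℂ) ^ (-(t : ℂ) * I) =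
      -I * (((2 * Real.sin (s / 2 * Real.log n) : ℝ) : ℂ) * (n : ℂ) ^ (-((t + s / 2 : ℝ) : ℂ) * I)) := by
  have hn0 : (n : ℂ) ≠ 0 := by exact_mod_cast hn
  rw [Complex.cpow_def_of_ne_zero hn0, Complex.cpow_def_of_ne_zero hn0, Complex.cpow_def_of_ne_zero hn0,
    ← Complex.natCast_log]
  have h3 : ((2 * Real.sin (s / 2 * Real.log n) : ℝ) : ℂ) =
      (cexp (-(((s / 2 * Real.log n : ℝ) : ℂ) * I)) - cexp (((s / 2 * Real.log n : ℝ) : ℂ) * I)) * I := by
    push_cast
    rw [Complex.sin]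
    ring
  rw [h3]
  have e1 : cexp ((Real.log n : ℂ) * (-((t + s : ℝ) : ℂ) * I)) =
      cexp (-(((s / 2 * Real.log n : ℝ) : ℂ) * I)) * cexp ((Real.log n : ℂ) * (-((t + s / 2 : ℝ) : ℂ) * I)) := by
    rw [← Complex.exp_add]
    congr 1
    push_cast
    ring
  have e2 : cexp ((Real.log n : ℂ) * (-(t : ℂ) * I)) =
      cexp (((s / 2 * Real.log n : ℝ) : ℂ) * I) * cexp ((Real.log n : ℂ) * (-((t + s / 2 : ℝ) : ℂ) * I)) := by
    rw [← Complex.exp_add]
    congr 1
    push_cast
    ring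
  rw [e1, e2]
  linear_combination ((cexp (-(((s / 2 * Real.log n : ℝ) : ℂ) * I)) - cexp (((s / 2 * Real.log n : ℝ) : ℂ) * I)) *
    cexp ((Real.log n : ℂ) * (-((t + s / 2 : ℝ) : ℂ) * I))) * I_sq

/-- the difference of two shifts -/
lemma G_diff (c : ℕ → ℝ) (X : ℕ) (s t : ℝ) :
    G c X (t + s) - G c X t = -I * G (cs c s) X (t + s / 2) := by
  unfold G DP
  rw [← Finset.sum_sub_distrib, Finset.mul_sum]
  refine Finset.sum_congr rfl fun n hn => ?_
  rw [← mul_sub, term_diff n (by have := (Finset.mem_Icc.1 hn).1; omega)]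
  rw [pr_apply, pr_apply]
  unfold cs
  split_ifs
  · push_cast; ring
  · simp

lemma G_diff_re (c : ℕ → ℝ) (X : ℕ) (s t : ℝ) :
    (G c X (t + s)).re - (G c X t).re = (G (cs c s) X (t + s / 2)).im := by
  have h := congrArg Complex.re (G_diff c X s t)
  rw [Complex.sub_re, neg_mul, Complex.neg_re, Complex.I_mul_re, neg_neg] at h
  exact h

/-- the factor of `rc` which does not depend on the length of the window -/
def wk (l : ℝ) (n : ℕ) : ℝ :=
  2 * (1 / Real.sqrt (2 * Real.pi)) * (ArithmeticFunction.vonMangoldt n * (Real.sqrt n)⁻¹ *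
    Pool.Agent.TH850.UV.ggo l n) * (l / (2 * Real.pi) * (2 / Real.log n))

lemma rc_wk (l h : ℝ) (n : ℕ) : rc l h n = wk l n * Real.sin (h / 2 * Real.log n) := by
  unfold rc wk
  ring

lemma trig_id (A B : ℝ) : Real.sin A ^ 2 * (2 * Real.sin B) ^ 2 =
    2 * Real.sin A ^ 2 + 2 * Real.sin B ^ 2 - Real.sin (A + B) ^ 2 - Real.sin (B - A) ^ 2 := by
  rw [Real.sin_add, Real.sin_sub]
  have h1 := Real.sin_sq_add_cos_sq A
  have h2 := Real.sin_sq_add_cos_sq B
  have e1 : Real.cos A ^ 2 = 1 - Real.sin A ^ 2 := by linarith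
  have e2 : Real.cos B ^ 2 = 1 - Real.sin B ^ 2 := by linarith
  have e3 : (Real.sin A * Real.cos B + Real.cos A * Real.sin B) ^ 2 +
      (Real.sin B * Real.cos A - Real.cos B * Real.sin A) ^ 2 =
      2 * (Real.sin A ^ 2 * Real.cos B ^ 2 + Real.cos A ^ 2 * Real.sin B ^ 2) := by ring
  have e4 : 2 * Real.sin A ^ 2 + 2 * Real.sin B ^ 2 - (Real.sin A * Real.cos B + Real.cos A * Real.sin B) ^ 2 -
      (Real.sin B * Real.cos A - Real.cos B * Real.sin A) ^ 2 =
      2 * Real.sin A ^ 2 + 2 * Real.sin B ^ 2 -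
      2 * (Real.sin A ^ 2 * Real.cos B ^ 2 + Real.cos A ^ 2 * Real.sin B ^ 2) := by linarith
  rw [e4, e1, e2]
  ring

/-- the variance of the second difference -/
lemma VS_cs (l h s : ℝ) (X : ℕ) : VS (cs (rc l h) s) X =
    2 * VS (rc l h) X + 2 * VS (rc l s) X - VS (rc l (h + s)) X - VS (rc l (s - h)) X := by
  unfold VS
  rw [Finset.mul_sum, Finset.mul_sum, ← Finset.sum_add_distrib, ← Finset.sum_sub_distrib,
    ← Finset.sum_sub_distrib]
  refine Finset.sum_congr rfl fun p _ => ?_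
  unfold cs
  rw [rc_wk, rc_wk, rc_wk, rc_wk, mul_pow, mul_pow, mul_pow, mul_pow]
  have h1 := trig_id (h / 2 * Real.log p) (s / 2 * Real.log p)
  have e1 : h / 2 * Real.log p + s / 2 * Real.log p = (h + s) / 2 * Real.log p := by ring
  have e2 : s / 2 * Real.log p - h / 2 * Real.log p = (s - h) / 2 * Real.log p := by ring
  rw [e1, e2] at h1
  have e3 : (2 * Real.sin (s / 2 * Real.log p)) ^ 2 = 2 ^ 2 * Real.sin (s / 2 * Real.log p) ^ 2 := by ring
  linear_combination (wk l p ^ 2) * h1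

/-- small windows -/
lemma VS_small (l d s : ℝ) (X : ℕ) : VS (rc l d) X ≤ 2 * VS (rc l (d + s)) X + 2 * VS (rc l s) X := by
  unfold VS
  rw [Finset.mul_sum, Finset.mul_sum, ← Finset.sum_add_distrib]
  refine Finset.sum_le_sum fun p _ => ?_
  rw [rc_wk, rc_wk, rc_wk, mul_pow, mul_pow, mul_pow]
  have h1 : Real.sin (d / 2 * Real.log p) ^ 2 ≤
      2 * Real.sin ((d + s) / 2 * Real.log p) ^ 2 + 2 * Real.sin (s / 2 * Real.log p) ^ 2 := by
    have e : d / 2 * Real.log p = (d + s) / 2 * Real.log p - s / 2 * Real.log p := by ring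
    rw [e, Real.sin_sub]
    set P := Real.sin ((d + s) / 2 * Real.log p)
    set Q := Real.sin (s / 2 * Real.log p)
    have c1 : Real.cos (s / 2 * Real.log p) ^ 2 ≤ 1 := Real.cos_sq_le_one _
    have c2 : Real.cos ((d + s) / 2 * Real.log p) ^ 2 ≤ 1 := Real.cos_sq_le_one _
    set c := Real.cos (s / 2 * Real.log p)
    set c' := Real.cos ((d + s) / 2 * Real.log p)
    have h2 : (P * c - c' * Q) ^ 2 ≤ 2 * (P * c) ^ 2 + 2 * (c' * Q) ^ 2 := by
      nlinarith [sq_nonneg (P * c + c' * Q)]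
    have h3 : (P * c) ^ 2 ≤ P ^ 2 := by
      rw [mul_pow]; exact mul_le_of_le_one_right (sq_nonneg _) c1
    have h4 : (c' * Q) ^ 2 ≤ Q ^ 2 := by
      rw [mul_pow]; exact mul_le_of_le_one_left (sq_nonneg _) c2
    linarith
  have := mul_le_mul_of_nonneg_left h1 (sq_nonneg (wk l p))
  linarith

/-- the size of the coefficients -/
lemma cs_bd {l : ℝ} (hl : 0 < l) (h s : ℝ) (n : ℕ) : cs (rc l h) s n ^ 2 ≤ 4 := by
  unfold cs
  rw [mul_pow]
  have h1 := rc_bd hl h n
  have h2 : (2 * Real.sin (s / 2 * Real.log n)) ^ 2 ≤ 4 := by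
    have := Real.sin_sq_le_one (s / 2 * Real.log n)
    rw [mul_pow]
    linarith
  calc rc l h n ^ 2 * (2 * Real.sin (s / 2 * Real.log n)) ^ 2 ≤ 1 * 4 :=
        mul_le_mul h1 h2 (sq_nonneg _) zero_le_one
    _ = 4 := one_mul _

end

end Pool.Agent.X112.SD
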