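import Pool.Agent.X112.SD.St
import Pool.Agent.Y743.CL.Pa

/-! # From heights to zeros, second differences -/

set_option autoImplicit false

namespace Pool.Agent.X112.SD

open Filter Topology MeasureTheory Set
open Pool.Agent.Y743.CL (dev_eq split_int)
open SG (ord NZ)
open Pool.Agent.Y743.NC (dev dev_nonneg dev_int count_le var_le)

/-- few zeros have a neighbourhood in a small set -/
lemma palmG {T M s : ℝ} (hT : 1 < T) (hM : 0 < M) (hs : 0 < s) (S : Finset ℕ)
    (W : Set ℝ) (hWm : MeasurableSet W)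
    (h1 : ∀ n ∈ S, 1 ≤ n) (h2 : ∀ n ∈ S, T + M * (2 * Real.pi / Real.log T) ≤ ord n)
    (h3 : ∀ n ∈ S, ord n ≤ 2 * T)
    (hW : ∀ n ∈ S, ∀ t : ℝ, ord n ≤ t + M * (2 * Real.pi / Real.log T) → t < ord n → t ∈ W) :
    M * (2 * Real.pi / Real.log T) * S.card ≤ M * volume.real (W ∩ Icc T (2 * T)) +
      (s * T + (1 / s) * ∫ t in Icc T (2 * T), dev T M t) / 2 := by
  have hpi := Real.pi_pos
  have hL : 0 < Real.log T := Real.log_pos hT
  set h : ℝ := 2 * Real.pi / Real.log T with hh
  have hh0 : 0 < h := by positivity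
  set ℓ : ℝ := M * h with hℓ
  have hℓ0 : 0 < ℓ := by positivity
  have i1 : IntegrableOn (dev T M) (Icc T (2 * T)) := dev_int _ _ _ _
  have i2 : IntegrableOn (W.indicator fun _ : ℝ => (1 : ℝ)) (Icc T (2 * T)) :=
    (integrableOn_const (by rw [Real.volume_Icc]; exact ENNReal.ofReal_ne_top)).indicator hWm
  have i3 : IntegrableOn (fun _ : ℝ => s) (Icc T (2 * T)) :=
    integrableOn_const (by rw [Real.volume_Icc]; exact ENNReal.ofReal_ne_top)
  have hmain := count_le (A := T) (B := 2 * T) hℓ0.le S (fun n => ord n - ℓ)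
    (g := fun t => M * W.indicator (fun _ : ℝ => (1 : ℝ)) t + (s + (1 / s) * dev T M t) / 2)
    ((i2.const_mul M).add ((i3.add (i1.const_mul (1 / s))).div_const 2))
    (fun n hn => ⟨by have := h2 n hn; linarith, by have := h3 n hn; linarith⟩) (by
      intro t ht
      have hd := dev_nonneg T M t
      rcases (S.filter fun n => ord n - ℓ ≤ t ∧ t < ord n - ℓ + ℓ).eq_empty_or_nonempty with he | he
      · rw [he, Finset.card_empty, Nat.cast_zero]
        have : 0 ≤ W.indicator (fun _ : ℝ => (1 : ℝ)) t := indicator_nonneg (fun _ _ => zero_le_one) _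
        positivity
      obtain ⟨n0, hn0⟩ := he
      rw [Finset.mem_filter] at hn0
      obtain ⟨hn0S, b1, b2⟩ := hn0
      -- the count
      have hsub : (S.filter fun n => ord n - ℓ ≤ t ∧ t < ord n - ℓ + ℓ) ⊆
          Finset.Ioc (NZ t) (NZ (t + ℓ)) := by
        intro n hn
        rw [Finset.mem_filter] at hn
        obtain ⟨c1, c2, c3⟩ := hn
        rw [Finset.mem_Ioc]
        refine ⟨?_, (SG.ord_le_iff (h1 n c1) _).mp (by linarith)⟩
        by_contra hcon
        push Not at hcon
        have := (SG.ord_le_iff (h1 n c1) _).mpr hcon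
        linarith
      have hcard := Finset.card_le_card hsub
      rw [Nat.card_Ioc] at hcard
      have hmono : NZ t ≤ NZ (t + ℓ) := SG.NZ_mono (by linarith)
      have hcard' : ((S.filter fun n => ord n - ℓ ≤ t ∧ t < ord n - ℓ + ℓ).card : ℝ) ≤
          (NZ (t + ℓ) : ℝ) - NZ t := by
        have : ((S.filter fun n => ord n - ℓ ≤ t ∧ t < ord n - ℓ + ℓ).card : ℝ) ≤
          ((NZ (t + ℓ) - NZ t : ℕ) : ℝ) := by exact_mod_cast hcard
        rwa [Nat.cast_sub hmono] at this
      refine hcard'.trans ?_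
      have htW : t ∈ W := hW n0 hn0S t (by linarith) (by linarith)
      show _ ≤ M * W.indicator (fun _ : ℝ => (1 : ℝ)) t + (s + (1 / s) * dev T M t) / 2
      rw [indicator_of_mem htW, dev_eq, ← hh, ← hℓ, mul_one]
      set w : ℝ := (NZ (t + ℓ) : ℝ) - NZ t with hw
      have h5 : w - M ≤ (s + 1 / s * (w - M) ^ 2) / 2 := by
        have h6 : 0 ≤ (s - (w - M)) ^ 2 / s := by positivity
        have h7 : (s - (w - M)) ^ 2 / s = s - 2 * (w - M) + 1 / s * (w - M) ^ 2 := by
          field_simp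
          ring
        linarith
      linarith)
  refine hmain.trans (le_of_eq ?_)
  rw [split_int (by rw [Real.volume_Icc]; exact ENNReal.ofReal_ne_top) hWm M s i1,
    Real.volume_real_Icc_of_le (by linarith)]
  ring

/-- the set where the increment of the counting function between two places is abnormal -/
def Bd (T x y z : ℝ) : Set ℝ := {t | t ∈ Icc (T + 1) (2 * T - 1) ∧
  z < |(NZ (t + x * (2 * Real.pi / Real.log T)) : ℝ) - NZ (t + y * (2 * Real.pi / Real.log T)) - (x - y)|}

lemma Bd_symm (T x y z : ℝ) : Bd T x y z = Bd T y x z := by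
  unfold Bd
  ext t
  simp only [mem_ofPred_eq]
  have e : |(NZ (t + x * (2 * Real.pi / Real.log T)) : ℝ) - NZ (t + y * (2 * Real.pi / Real.log T)) - (x - y)| =
    |(NZ (t + y * (2 * Real.pi / Real.log T)) : ℝ) - NZ (t + x * (2 * Real.pi / Real.log T)) - (y - x)| := by
    rw [← abs_neg]
    congr 1
    ring
  rw [e]

lemma Bd_meas (T x y z : ℝ) : MeasurableSet (Bd T x y z) := by
  unfold Bd
  have h1 : Measurable fun t : ℝ => (NZ t : ℝ) := measurable_from_nat.comp (SG.NZ_mono.measurable)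
  have h2 : Measurable fun t : ℝ => (NZ (t + x * (2 * Real.pi / Real.log T)) : ℝ) :=
    h1.comp (measurable_id.add_const _)
  have h3 : Measurable fun t : ℝ => (NZ (t + y * (2 * Real.pi / Real.log T)) : ℝ) :=
    h1.comp (measurable_id.add_const _)
  have h4 : Measurable fun t : ℝ =>
    |(NZ (t + x * (2 * Real.pi / Real.log T)) : ℝ) - NZ (t + y * (2 * Real.pi / Real.log T)) - (x - y)| := by
    have := (h2.sub h3).sub_const (x - y)
    exact this.abs
  exact measurableSet_Icc.inter (measurableSet_lt measurable_const h4)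

/-- Chebyshev -/
lemma Bd_le : ∃ C T0 : ℝ, 1 ≤ C ∧ 10 ≤ T0 ∧ ∀ T : ℝ, T0 ≤ T → ∀ x y z Λ : ℝ, 0 < z → 1 ≤ Λ →
    |x - y| ≤ Λ → Λ * Real.log Λ ≤ Real.log T → |x| * (2 * Real.pi / Real.log T) ≤ 1 →
    |y| * (2 * Real.pi / Real.log T) ≤ 1 →
    volume.real (Bd T x y z) ≤ T * ((C + Real.log (1 + Λ)) / z ^ 2) := by
  obtain ⟨C, T0, hC, hT0, hv⟩ := var_le
  refine ⟨C, T0, hC, hT0, fun T hT => ?_⟩
  have hT10 : 10 ≤ T := hT0.trans hT
  have hpi := Real.pi_pos
  have hL : 0 < Real.log T := Real.log_pos (by linarith)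
  have key : ∀ x y z Λ : ℝ, y < x → 0 < z → 1 ≤ Λ →
    |x - y| ≤ Λ → Λ * Real.log Λ ≤ Real.log T →
    |y| * (2 * Real.pi / Real.log T) ≤ 1 →
    volume.real (Bd T x y z) ≤ T * ((C + Real.log (1 + Λ)) / z ^ 2) := by
    intro x y z Λ hxy hz hΛ hxΛ hΛT hy
    set a := x - y with ha
    have ha0 : 0 < a := by linarith
    rw [abs_of_pos ha0] at hxΛ
    have haL : a * Real.log a ≤ Real.log T := by
      refine le_trans ?_ hΛT
      rcases le_or_gt a 1 with h1 | h1
      · have h2 : Real.log a ≤ 0 := Real.log_nonpos ha0.le h1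
        have h3 : 0 ≤ Real.log Λ := Real.log_nonneg hΛ
        nlinarith
      · exact mul_le_mul hxΛ (Real.log_le_log ha0 hxΛ) (Real.log_nonneg h1.le) (by linarith)
    have h1 := hv T hT a ha0 haL
    set u := 2 * Real.pi / Real.log T with hu
    set P : Set ℝ := {t | z ^ 2 ≤ dev T a t} with hP
    have hPm : MeasurableSet P := by
      have h1 : Measurable fun t : ℝ => (NZ t : ℝ) := measurable_from_nat.comp (SG.NZ_mono.measurable)
      have h2 : Measurable fun t : ℝ => (NZ (t + 2 * Real.pi * a / Real.log T) : ℝ) :=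
        h1.comp (measurable_id.add_const _)
      exact measurableSet_le measurable_const (((h2.sub h1).sub_const _).pow_const 2)
    have hch := mul_meas_ge_le_integral_of_nonneg (μ := volume.restrict (Icc T (2 * T)))
      (f := fun t => dev T a t) (Eventually.of_forall fun _ => dev_nonneg _ _ _) (dev_int T a T (2 * T)) (z ^ 2)
    rw [measureReal_restrict_apply hPm] at hch
    have hsub : Bd T x y z ⊆ (fun t => t + y * u) ⁻¹' (P ∩ Icc T (2 * T)) := by
      intro t ht
      obtain ⟨ht1, ht2⟩ := ht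
      have hy1 : |y * u| ≤ 1 := by
        rw [abs_mul, abs_of_nonneg (by positivity : (0 : ℝ) ≤ u)]
        exact hy
      have hy2 := abs_le.1 hy1
      refine ⟨?_, by linarith [ht1.1], by linarith [ht1.2]⟩
      rw [hP, mem_ofPred_eq, dev_eq, ← hu]
      have e : t + y * u + a * u = t + x * u := by rw [ha]; ring
      have h6 := pow_le_pow_left₀ hz.le ht2.le 2
      rw [sq_abs] at h6
      show z ^ 2 ≤ ((NZ (t + y * u + a * u) : ℝ) - NZ (t + y * u) - a) ^ 2
      rw [e]
      exact h6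
    have hfin : volume (P ∩ Icc T (2 * T)) ≠ ⊤ := ne_top_of_le_ne_top
      (by rw [Real.volume_Icc]; exact ENNReal.ofReal_ne_top) (measure_mono inter_subset_right)
    have h2 : volume.real (Bd T x y z) ≤ volume.real (P ∩ Icc T (2 * T)) := by
      have h3 : volume.real ((fun t => t + y * u) ⁻¹' (P ∩ Icc T (2 * T))) =
          volume.real (P ∩ Icc T (2 * T)) := by
        rw [Measure.real, Measure.real, measure_preimage_add_right]
      rw [← h3]
      refine measureReal_mono hsub ?_
      rw [measure_preimage_add_right]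
      exact hfin
    refine h2.trans ?_
    have h4 : Real.log (1 + a) ≤ Real.log (1 + Λ) := Real.log_le_log (by linarith) (by linarith)
    have h5 : T * (C + Real.log (1 + a)) ≤ T * (C + Real.log (1 + Λ)) :=
      mul_le_mul_of_nonneg_left (by linarith) (by linarith)
    rw [← mul_div_assoc, le_div_iff₀ (by positivity), mul_comm]
    linarith
  intro x y z Λ hz hΛ hxΛ hΛT hx hy
  rcases lt_trichotomy x y with h | h | h
  · rw [Bd_symm]
    exact key y x z Λ h hz hΛ (by rwa [abs_sub_comm]) hΛT hx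
  · subst h
    have e : Bd T x x z = ∅ := by
      unfold Bd
      ext t
      simp only [mem_ofPred_eq, mem_empty_iff_false, iff_false, sub_self, abs_zero]
      rintro ⟨_, h⟩
      linarith
    rw [e, measureReal_empty]
    have : 0 ≤ Real.log (1 + Λ) := Real.log_nonneg (by linarith)
    have h0 : 0 ≤ T := by linarith
    positivity
  · exact key x y z Λ h hz hΛ hxΛ hΛT hy

/-- the position of the `(n+j)`-th ordinate -/
lemma pos_est {u t M ω : ℝ} (hu : 0 < u) {n j W : ℕ} (hn : 1 ≤ n) (h1 : t < ord n)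
    (h2 : ord n ≤ t + M * u) (hM : (NZ (t + M * u) : ℝ) - NZ t - M ≤ ω)
    (hp : |(NZ (t + (j + W) * u) : ℝ) - NZ t - (j + W)| ≤ W / 2)
    (hm : |(NZ (t + (j - W) * u) : ℝ) - NZ t - (j - W)| ≤ W / 2)
    (hO : ∀ i : ℤ, -(W : ℤ) ≤ i → i ≤ W → |(NZ (t + (j + i) * u) : ℝ) - NZ (t + j * u) - i| ≤ ω)
    (hMW : M + ω ≤ W / 2) :
    |(ord (n + j) - t) / u - j - (n + j - NZ (t + j * u))| ≤ ω + 1 := by
  have hnj : 1 ≤ n + j := by omega
  have a1 : NZ t < n := by
    by_contra hcon
    push Not at hcon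
    have := (SG.ord_le_iff hn _).mpr hcon
    linarith
  have a2 : n ≤ NZ (t + M * u) := (SG.ord_le_iff hn _).mp h2
  have a1' : (NZ t : ℝ) + 1 ≤ n := by exact_mod_cast a1
  have a2' : (n : ℝ) ≤ NZ (t + M * u) := by exact_mod_cast a2
  have a3 := abs_le.1 hp
  have a4 := abs_le.1 hm
  have b1 : ord (n + j) ≤ t + (j + W) * u := by
    refine (SG.ord_le_iff hnj _).mpr ?_
    have : ((n + j : ℕ) : ℝ) ≤ NZ (t + (j + W) * u) := by
      push_cast
      linarith [a3.1]
    exact_mod_cast this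
  have b2 : t + (j - W) * u < ord (n + j) := by
    by_contra hcon
    push Not at hcon
    have h3 := (SG.ord_le_iff hnj _).mp hcon
    have h4 : ((n + j : ℕ) : ℝ) ≤ NZ (t + (j - W) * u) := by exact_mod_cast h3
    push_cast at h4
    have h5 : (0 : ℝ) ≤ W := Nat.cast_nonneg _
    linarith [a4.2]
  set τ := (ord (n + j) - t) / u - j with hτ
  have hτu : ord (n + j) = t + (j + τ) * u := by
    rw [hτ]; field_simp; ring
  obtain ⟨i, hi⟩ : ∃ i : ℤ, i = ⌈τ⌉ - 1 := ⟨_, rfl⟩
  have c1 : (i : ℝ) < τ := by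
    have := Int.ceil_lt_add_one τ
    rw [hi]; push_cast; linarith
  have c2 : τ ≤ i + 1 := by
    have := Int.le_ceil τ
    rw [hi]; push_cast; linarith
  have c3 : τ ≤ W := by
    rw [hτu] at b1
    have := le_of_mul_le_mul_right (by linarith : (j + τ) * u ≤ (j + W) * u) hu
    linarith
  have c4 : -(W : ℝ) < τ := by
    rw [hτu] at b2
    have := lt_of_mul_lt_mul_right (by linarith : ((j : ℝ) - W) * u < (j + τ) * u) hu.le
    linarith
  have c5 : i + 1 ≤ (W : ℤ) := by
    have : ⌈τ⌉ ≤ (W : ℤ) := Int.ceil_le.2 (by exact_mod_cast c3)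
    omega
  have c6 : -(W : ℤ) ≤ i := by
    have : (-(W : ℤ) : ℤ) < ⌈τ⌉ := Int.lt_ceil.2 (by push_cast; exact c4)
    omega
  have d1 := abs_le.1 (hO i c6 (by omega))
  have d2 := abs_le.1 (hO (i + 1) (by omega) c5)
  have e1 : NZ (t + (j + i) * u) < n + j := by
    by_contra hcon
    push Not at hcon
    have h3 := (SG.ord_le_iff hnj _).mpr hcon
    rw [hτu] at h3
    have := le_of_mul_le_mul_right (by linarith : (j + τ) * u ≤ (j + i) * u) hu
    linarith
  have e2 : n + j ≤ NZ (t + (j + (i + 1 : ℤ)) * u) := by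
    refine (SG.ord_le_iff hnj _).mp ?_
    rw [hτu]
    push_cast
    have : (j + τ) * u ≤ (j + (i + 1)) * u := mul_le_mul_of_nonneg_right (by linarith) hu.le
    linarith
  have e1' : (NZ (t + (j + i) * u) : ℝ) < n + j := by exact_mod_cast e1
  have e2' : (n : ℝ) + j ≤ NZ (t + (j + (i + 1 : ℤ)) * u) := by exact_mod_cast e2
  push_cast at d2 e2'
  rw [abs_le]
  constructor <;> linarith [d1.1, d1.2, d2.1, d2.2]

lemma Ds_u (a b T t : ℝ) : Ds a b T t =
    ((NZ (t + (b + a) * (2 * Real.pi / Real.log T)) : ℝ) - NZ (t + b * (2 * Real.pi / Real.log T))) -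
    ((NZ (t + a * (2 * Real.pi / Real.log T)) : ℝ) - NZ t) := by
  unfold Ds
  have e1 : t + 2 * Real.pi * b / Real.log T + 2 * Real.pi * a / Real.log T =
    t + (b + a) * (2 * Real.pi / Real.log T) := by ring
  have e2 : t + 2 * Real.pi * b / Real.log T = t + b * (2 * Real.pi / Real.log T) := by ring
  have e3 : t + 2 * Real.pi * a / Real.log T = t + a * (2 * Real.pi / Real.log T) := by ring
  rw [e1, e2, e3]

lemma Ds_meas (a b T : ℝ) : Measurable (Ds a b T) := by
  have h1 : Measurable fun t : ℝ => (NZ t : ℝ) := measurable_from_nat.comp (SG.NZ_mono.measurable)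
  have h2 : ∀ c : ℝ, Measurable fun t : ℝ => (NZ (t + c) : ℝ) := fun c =>
    h1.comp (measurable_id.add_const _)
  have e : Ds a b T = fun t : ℝ => ((NZ (t + (b + a) * (2 * Real.pi / Real.log T)) : ℝ) -
    NZ (t + b * (2 * Real.pi / Real.log T))) - ((NZ (t + a * (2 * Real.pi / Real.log T)) : ℝ) - NZ t) := by
    funext t
    exact Ds_u a b T t
  rw [e]
  exact ((h2 _).sub (h2 _)).sub ((h2 _).sub h1)

end Pool.Agent.X112.SD
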